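import Mathlib
import Pool.Agent.Lib.MP_79af62_gt.Glue

/-! Statements of the blocks for the affine plank theorem (page of helper18; data of helper65,
summed form of helper20).  A face is a sign vector with free coordinates. -/

namespace Pool.Agent.BG

open Finset Set MeasureTheory Pool.Agent.Lib.MP_79af62_gt.Glue

/-- Signed sets: `none` marks a free coordinate. -/
abbrev Face (n : ℕ) : Type := Fin n → Option Bool

variable {n : ℕ}

/-- Give the coordinate `a` the sign `e`. -/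
def put (G : Face n) (a : Fin n) (e : Bool) : Face n := Function.update G a (some e)

/-- Make the coordinate `a` free. -/
def cut (G : Face n) (a : Fin n) : Face n := Function.update G a none

/-- The free coordinates. -/
def free (G : Face n) : Finset (Fin n) := univ.filter fun a => G a = none

/-- The signed coordinates. -/
def supp (G : Face n) : Finset (Fin n) := univ.filter fun a => G a ≠ none

/-- The empty face. -/
def emp (n : ℕ) : Face n := fun _ => none

/-- The full face of a sign vector. -/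
def full (σ : Fin n → Bool) : Face n := fun a => some (σ a)

/-- The vector `s` times the signed unit vector. -/
def ax (a : Fin n) (e : Bool) (s : ℝ) : Fin n → ℝ := Pi.single a (sg e * s)

/-- Summed second-order log-concavity. -/
def LC (Z : Face n → ℝ) : Prop :=
  ∀ u : Face n → Fin n → ℝ,
    ∑ F, Z F * ∑ k ∈ free F, ∑ l ∈ (free F).erase k,
        (∑ e, u (put F k e) l) * (∑ d, u (put F l d) k) ≤
      2 * ∑ G, Z G * ∑ l ∈ free G, u G l ^ 2 +
        ∑ H, (∑ a ∈ supp H, Z (cut H a) * u (cut H a) a) ^ 2 / Z H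

/-- Face by face form, with slack `δ`; `N H a` is the whole diagonal term. -/
def LCpt (Z : Face n → ℝ) : Prop :=
  ∀ (u : Face n → Fin n → ℝ) (δ : ℝ), 0 < δ → ∃ N : Face n → Fin n → ℝ,
    (∀ G, ∀ a ∈ free G,
      -(2 * Z G * u G a ^ 2) - δ ≤ N (put G a true) a + N (put G a false) a) ∧
    ∀ H, ∑ a ∈ supp H, ∑ b ∈ (supp H).erase a,
          Z (cut (cut H a) b) * (u (cut H a) a * u (cut H b) b) + ∑ a ∈ supp H, N H a ≤
        (∑ a ∈ supp H, Z (cut H a) * u (cut H a) a) ^ 2 / Z H + δ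

/-- The top-level smallness. -/
def Top (Z : Face n → ℝ) (κ : ℝ) : Prop := ∀ σ, ∑ a, Z (cut (full σ) a) ≤ κ * Z (full σ)

/-- A sublinear function above `(1 + η)` times the sum of absolute values. -/
structure Gauge (g : (Fin n → ℝ) → ℝ) (η L : ℝ) : Prop where
  eta : 0 < η
  sub : ∀ x y, g (x + y) ≤ g x + g y
  hom : ∀ (t : ℝ) x, 0 ≤ t → g (t • x) = t * g x
  low : ∀ x, (1 + η) * ∑ i, |x i| ≤ g x
  up : ∀ x, g x ≤ L * ∑ i, |x i|

/-- The shifted orthant integrals, by their one-dimensional recursion (for EVERY free `a`). -/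
structure Rec (g : (Fin n → ℝ) → ℝ) (F : Face n → (Fin n → ℝ) → ℝ) : Prop where
  base : ∀ x, F (emp n) x = Real.exp (-g x)
  pos : ∀ G x, 0 < F G x
  int : ∀ G, ∀ a ∈ free G, ∀ e x,
    IntegrableOn (fun s => Real.exp s * F G (x + ax a e s)) (Ioi 0)
  step : ∀ G, ∀ a ∈ free G, ∀ e x,
    F (put G a e) x = ∫ s in Ioi (0 : ℝ), Real.exp s * F G (x + ax a e s)

/-- Subadditivity passes to the integrals (so `log (F G)` is Lipschitz). -/
def Shift (g : (Fin n → ℝ) → ℝ) (F : Face n → (Fin n → ℝ) → ℝ) : Prop :=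
  ∀ G x v, F G x ≤ Real.exp (g v) * F G (x + v)

/-- Midpoint log-concavity. -/
def Mid (F : Face n → (Fin n → ℝ) → ℝ) : Prop :=
  ∀ G x y, F G x * F G y ≤ F G ((1 / 2 : ℝ) • (x + y)) ^ 2

/-- Continuity, and the one-coordinate shift formula for `τ` of both signs. -/
def Ftc (F : Face n → (Fin n → ℝ) → ℝ) : Prop :=
  (∀ G, Continuous (F G)) ∧ ∀ G, ∀ a ∈ free G, ∀ e x (τ : ℝ),
    Real.exp τ * F (put G a e) (x + ax a e τ) =
      F (put G a e) x - ∫ s in (0 : ℝ)..τ, Real.exp s * F G (x + ax a e s)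

/-- Block GAUGE. -/
def GAUGE : Prop :=
  ∀ (n : ℕ) (y : (Fin n → Bool) → Fin n → ℝ) (h : Fin n → Bool → ℝ)
    (x : Fin n → Bool → Fin n → ℝ) (η : ℝ), 0 < η → (∀ σ j, 0 < y σ j) →
    (∀ j e, sg e * x j e j = h j e) → (∀ j b σ, ∑ i, y σ i * (sg (σ i) * x j b i - 1) ≤ 0) →
    ∃ (g : (Fin n → ℝ) → ℝ) (L : ℝ), Gauge g η L ∧
      (∀ σ, g (fun i => sg (σ i) * y σ i) ≤ (1 + η) * ∑ i, y σ i) ∧ ∀ k e, h k e ≤ g (ax k e 1)

/-- Block REC. -/
def REC : Prop :=
  ∀ (n : ℕ) (g : (Fin n → ℝ) → ℝ) (η L : ℝ), Gauge g η L → ∃ F, Rec g F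

/-- Block SHIFT. -/
def SHIFT : Prop :=
  ∀ (n : ℕ) (g : (Fin n → ℝ) → ℝ) (η L : ℝ) (F : Face n → (Fin n → ℝ) → ℝ),
    Gauge g η L → Rec g F → Shift g F

/-- Block FTC. -/
def FTC : Prop :=
  ∀ (n : ℕ) (g : (Fin n → ℝ) → ℝ) (η L : ℝ) (F : Face n → (Fin n → ℝ) → ℝ),
    Gauge g η L → Rec g F → Shift g F → Ftc F

/-- Block MID. -/
def MID : Prop :=
  ∀ (n : ℕ) (g : (Fin n → ℝ) → ℝ) (η L : ℝ) (F : Face n → (Fin n → ℝ) → ℝ),
    Gauge g η L → Rec g F → Shift g F → Ftc F → Mid F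

/-- Block PT. -/
def PT : Prop :=
  ∀ (n : ℕ) (g : (Fin n → ℝ) → ℝ) (η L : ℝ) (F : Face n → (Fin n → ℝ) → ℝ),
    Gauge g η L → Rec g F → Shift g F → Ftc F → Mid F → LCpt fun G => F G 0

/-- Block SUM. -/
def SUM : Prop := ∀ (n : ℕ) (Z : Face n → ℝ), (∀ G, 0 < Z G) → LCpt Z → LC Z

/-- Block TOP. -/
def TOP : Prop :=
  ∀ (n : ℕ) (g : (Fin n → ℝ) → ℝ) (η L : ℝ) (F : Face n → (Fin n → ℝ) → ℝ),
    Gauge g η L → Rec g F → Shift g F → Ftc F → ∀ (σ : Fin n → Bool) (y : Fin n → ℝ),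
    (∀ i, 0 < y i) → g (fun i => sg (σ i) * y i) ≤ (1 + η) * ∑ i, y i →
    ∀ a, y a * F (cut (full σ) a) 0 ≤ η * (∑ i, y i) * F (full σ) 0

/-- Block AXIS. -/
def AXIS : Prop :=
  ∀ (n : ℕ) (g : (Fin n → ℝ) → ℝ) (η L : ℝ) (F : Face n → (Fin n → ℝ) → ℝ),
    Gauge g η L → Rec g F → ∀ k e, (g (ax k e 1) - 1) * F (put (emp n) k e) 0 = F (emp n) 0

/-- All the analysis: the numbers `Z`. -/
def DATA : Prop :=
  ∀ (n : ℕ) (y : (Fin n → Bool) → Fin n → ℝ) (h : Fin n → Bool → ℝ)
    (x : Fin n → Bool → Fin n → ℝ) (ε : ℝ), 0 < ε → (∀ σ j, 0 < y σ j) → (∀ j e, 1 ≤ h j e) →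
    (∀ j e, sg e * x j e j = h j e) → (∀ j e k d, sg d * x j e k ≤ h k d) →
    (∀ j b σ, ∑ i, y σ i * (sg (σ i) * x j b i - 1) ≤ 0) →
    ∃ Z : Face n → ℝ, (∀ G, 0 < Z G) ∧ LCpt Z ∧ Top Z ε ∧
      ∀ k e, (h k e - 1 - ε) * Z (put (emp n) k e) ≤ Z (emp n)

/-- Block TRICKLE: the linear algebra, all levels at once (extremal vector of a quotient). -/
def TRICKLE : Prop :=
  ∀ (A T : Type) [AddCommGroup A] [Module ℝ A] [FiniteDimensional ℝ A] [AddCommGroup T]
    [Module ℝ T] (a p : A →ₗ[ℝ] A →ₗ[ℝ] ℝ) (t : T →ₗ[ℝ] T →ₗ[ℝ] ℝ) (D J : A →ₗ[ℝ] T)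
    (D' J' : T →ₗ[ℝ] A) (κ : ℝ), 0 ≤ κ →
    (∀ v w, a v w = a w v) → (∀ v w, p v w = p w v) → (∀ v w, t v w = t w v) →
    (∀ v, v ≠ 0 → 0 < a v v) → (∀ v, 0 ≤ p v v) → (∀ x, 0 ≤ t x x) →
    (∀ v x, t (D v) x = a v (D' x)) → (∀ v x, t (J v) x = a v (J' x)) →
    (∀ v x, p v (J' x) = 0) → (∀ v, a v v ≤ t (J v) (J v) + p v v) →
    (∀ x, p (D' x) (D' x) ≤ κ * t x x) →
    (∀ g α β x u, x = J g - D α → u = J α - D β →
      2 * t x (D (J' u)) - a (J' x) (J' x) + t x x ≤ t u u + a (D' u) (D' u)) →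
    ∀ g α, (1 - κ) * a g g ≤ a α α + t (J g - D α) (J g - D α) + p g g

/-- Block ALG (from TRICKLE). -/
def ALG : Prop :=
  ∀ (n : ℕ) (Z : Face n → ℝ) (κ : ℝ), 0 < n → 0 ≤ κ → (∀ G, 0 < Z G) → LC Z → Top Z κ →
    1 - κ ≤ ∑ k, 2 / (2 + Z (emp n) / Z (put (emp n) k true) + Z (emp n) / Z (put (emp n) k false))

@[simp] theorem mem_free {G : Face n} {a : Fin n} : a ∈ free G ↔ G a = none := by simp [free]

@[simp] theorem mem_supp {G : Face n} {a : Fin n} : a ∈ supp G ↔ G a ≠ none := by simp [supp]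

@[simp] theorem put_self (G : Face n) (a : Fin n) (e : Bool) : put G a e a = some e := by
  simp [put]

@[simp] theorem cut_self (G : Face n) (a : Fin n) : cut G a a = none := by simp [cut]

theorem put_ne (G : Face n) {a b : Fin n} (e : Bool) (h : b ≠ a) : put G a e b = G b := by
  simp [put, h]

theorem cut_ne (G : Face n) {a b : Fin n} (h : b ≠ a) : cut G a b = G b := by simp [cut, h]

theorem cut_put {G : Face n} {a : Fin n} (h : G a = none) (e : Bool) : cut (put G a e) a = G := by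
  rw [cut, put, Function.update_idem, ← h, Function.update_eq_self]

theorem put_cut {G : Face n} {a : Fin n} {e : Bool} (h : G a = some e) : put (cut G a) a e = G := by
  rw [cut, put, Function.update_idem, ← h, Function.update_eq_self]

theorem put_comm (G : Face n) {a b : Fin n} (h : a ≠ b) (e d : Bool) :
    put (put G a e) b d = put (put G b d) a e := Function.update_comm h _ _ _

theorem cut_comm (G : Face n) (a b : Fin n) : cut (cut G a) b = cut (cut G b) a := by
  rcases eq_or_ne a b with rfl | h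
  exacts [rfl, Function.update_comm h _ _ _]

theorem cut_put_ne (G : Face n) {a b : Fin n} (h : a ≠ b) (e : Bool) :
    cut (put G a e) b = put (cut G b) a e := Function.update_comm h _ _ _

theorem free_put (G : Face n) (a : Fin n) (e : Bool) : free (put G a e) = (free G).erase a := by
  ext b
  rcases eq_or_ne b a with rfl | h
  · simp
  · simp [put_ne G e h, h]

theorem supp_cut (G : Face n) (a : Fin n) : supp (cut G a) = (supp G).erase a := by
  ext b
  rcases eq_or_ne b a with rfl | h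
  · simp
  · simp [cut_ne G h, h]

/-- The basic re-indexing: signed coordinates of faces against free coordinates with a sign. -/
theorem sum_supp (f : Face n → Fin n → ℝ) :
    ∑ H, ∑ a ∈ supp H, f H a = ∑ G, ∑ a ∈ free G, ∑ e, f (put G a e) a := by
  simp only [supp, free, sum_filter]
  rw [sum_comm, sum_comm (γ := Face n)]
  refine sum_congr rfl fun a _ => ?_
  rw [← sum_filter, ← sum_filter, ← sum_product']
  refine (sum_bij' (fun q _ => put q.1 a q.2)
    (fun H _ => (cut H a, (H a).getD true)) ?_ ?_ ?_ ?_ ?_).symm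
  · simp
  · simp
  · rintro ⟨G, e⟩ hq
    simp only [Finset.mem_product, mem_filter, Finset.mem_univ, true_and, and_true] at hq
    simp [cut_put hq]
  · intro H hH
    simp only [mem_filter, Finset.mem_univ, true_and] at hH
    obtain ⟨e, he⟩ := Option.ne_none_iff_exists'.1 hH
    simp [he, put_cut he]
  · simp

/-- Induction over faces. -/
theorem face_ind {P : Face n → Prop} (h0 : P (emp n))
    (h1 : ∀ G, ∀ a ∈ free G, ∀ e, P G → P (put G a e)) (G : Face n) : P G := by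
  generalize hs : supp G = s
  induction s using Finset.induction_on generalizing G with
  | empty =>
    have : G = emp n := funext fun a => by
      by_contra h
      have : a ∈ supp G := mem_supp.2 h
      simp [hs] at this
    rwa [this]
  | insert a s ha ih =>
    have h2 : a ∈ supp G := by simp [hs]
    obtain ⟨e, he⟩ := Option.ne_none_iff_exists'.1 (mem_supp.1 h2)
    rw [← put_cut he]
    exact h1 _ a (by simp) e (ih _ (by rw [supp_cut, hs, erase_insert ha]))

end Pool.Agent.BG
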