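import Mathlib
import Pool.Agent.Lib.MP_79af62_gt.BG.St

/-! Finite algebra of the affine plank inequality: a Bochner identity on the faces of the cube. -/

namespace Pool.Agent.BG.Alg70

open Finset Function

variable {ι : Type} [Fintype ι] [DecidableEq ι]

/-- Faces of the cube: sign vectors with free coordinates. -/
abbrev Face (ι : Type) := ι → Option Bool

theorem resum0 (a : ι) (f : Face ι → ℝ) :
    ∑ H, f H = ∑ G : Face ι, if G a = none then ∑ o : Option Bool, f (update G a o) else 0 := by
  rw [← sum_filter, ← sum_product']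
  refine (sum_nbij' (fun p => update p.1 a p.2) (fun H => (update H a none, H a)) ?_ ?_ ?_ ?_
    ?_).symm
  · intro p _
    exact mem_univ _
  · intro H _
    simp
  · rintro ⟨G, o⟩ hp
    have : G a = none := by simpa using hp
    simp [← this]
  · intro H _
    simp
  · intro p _
    rfl

theorem resum (a : ι) (f : Face ι → ℝ) :
    ∑ H, (if H a ≠ none then f H else 0) =
      ∑ G : Face ι, if G a = none then ∑ e : Bool, f (update G a (some e)) else 0 := by
  rw [resum0 a]
  refine sum_congr rfl fun G _ => ?_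
  split_ifs
  · simp [Fintype.sum_option]
  · rfl

omit [Fintype ι] in
theorem up_rm {G : Face ι} {a : ι} (h : G a = none) (o : Option Bool) :
    update (update G a o) a none = G := by
  rw [update_idem, ← h, update_eq_self]

/-- The weighted down sum. -/
noncomputable def dn (Z : Face ι → ℝ) (u : Face ι → ι → ℝ) (H : Face ι) : ℝ :=
  ∑ a, if H a ≠ none then Z (update H a none) * u (update H a none) a else 0

/-- The summed log-concavity inequality. -/
def LC (Z : Face ι → ℝ) : Prop :=
  ∀ u : Face ι → ι → ℝ,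
    ∑ F : Face ι, ∑ a, ∑ b, (if F a = none ∧ F b = none ∧ a ≠ b then
      Z F * ((∑ e : Bool, u (update F a (some e)) b) * ∑ e : Bool, u (update F b (some e)) a)
      else 0) ≤
    2 * ∑ G : Face ι, ∑ l, (if G l = none then Z G * u G l ^ 2 else 0) + ∑ H, dn Z u H ^ 2 / Z H

theorem parts (Z : Face ι → ℝ) (u : Face ι → ι → ℝ) (g : Face ι → ℝ) :
    ∑ H, g H * dn Z u H =
      ∑ F : Face ι, ∑ a, if F a = none then Z F * u F a * ∑ e : Bool, g (update F a (some e))
        else 0 := by
  simp only [dn, mul_sum, mul_ite, mul_zero]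
  rw [sum_comm, sum_comm (s := (univ : Finset (Face ι)))]
  refine sum_congr rfl fun a _ => ?_
  rw [resum a]
  refine sum_congr rfl fun F _ => ?_
  split_ifs with h
  · refine sum_congr rfl fun e _ => ?_
    rw [up_rm h]
    ring
  · rfl

/-- The coboundary of a function on faces. -/
def al (p : ℝ) (χ : Face ι → ℝ) (G : Face ι) (l : ι) : ℝ :=
  χ G - p * ∑ e : Bool, χ (update G l (some e))

/-- Its divergence. -/
def ga (p : ℝ) (χ : Face ι → ℝ) (G : Face ι) : ℝ :=
  ∑ l, if G l = none then al p χ G l else 0

theorem boch1 (p : ℝ) (χ : Face ι → ℝ) (F : Face ι) :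
    2 * p * ∑ a, (if F a = none then al p χ F a * ∑ e : Bool, ga p χ (update F a (some e))
      else 0) - ga p χ F ^ 2 + ∑ a, (if F a = none then al p χ F a ^ 2 else 0) ≤
    p ^ 2 * ∑ a, ∑ b, if F a = none ∧ F b = none ∧ a ≠ b then
      (∑ e : Bool, al p χ (update F a (some e)) b) * ∑ e : Bool, al p χ (update F b (some e)) a
      else 0 := by
  obtain ⟨B, hB⟩ : ∃ B : ι → ι → ℝ, ∀ a b, B a b = ∑ e : Bool, al p χ (update F a (some e)) b :=
    ⟨_, fun _ _ => rfl⟩
  simp only [← hB]
  have e1 : ∑ a, (if F a = none then al p χ F a * ∑ e : Bool, ga p χ (update F a (some e))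
      else 0) = ∑ a, ∑ b, if F a = none ∧ F b = none ∧ a ≠ b then al p χ F a * B a b else 0 := by
    refine sum_congr rfl fun a _ => ?_
    by_cases h : F a = none
    · simp only [h, if_true, true_and, ga]
      rw [sum_comm, mul_sum]
      refine sum_congr rfl fun b _ => ?_
      by_cases hab : a = b
      · subst hab
        simp
      · have hba : b ≠ a := fun h => hab h.symm
        by_cases h' : F b = none <;> simp [hB, update_of_ne hba, h', hab]
    · simp [h]
  have e2 : ∑ a, ∑ b, (if F a = none ∧ F b = none ∧ a ≠ b then al p χ F a * B a b else 0) =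
      ∑ a, ∑ b, if F a = none ∧ F b = none ∧ a ≠ b then al p χ F b * B b a else 0 := by
    rw [sum_comm]
    refine sum_congr rfl fun a _ => sum_congr rfl fun b _ => if_congr ?_ rfl rfl
    tauto
  have e3 : ga p χ F ^ 2 = ∑ a, (if F a = none then al p χ F a ^ 2 else 0) +
      ∑ a, ∑ b, if F a = none ∧ F b = none ∧ a ≠ b then al p χ F a * al p χ F b else 0 := by
    rw [sq, ga, sum_mul_sum, ← sum_add_distrib]
    refine sum_congr rfl fun a _ => ?_
    rw [← add_sum_erase _ _ (mem_univ a), ← add_sum_erase _ _ (mem_univ a)]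
    have : ∑ b ∈ univ.erase a, (if F a = none then al p χ F a else 0) *
        (if F b = none then al p χ F b else 0) = ∑ b ∈ univ.erase a,
        if F a = none ∧ F b = none ∧ a ≠ b then al p χ F a * al p χ F b else 0 := by
      refine sum_congr rfl fun b hb => ?_
      have hab : a ≠ b := (ne_of_mem_erase hb).symm
      by_cases h : F a = none <;> by_cases h' : F b = none <;> simp [h, h', hab]
    rw [this]
    by_cases h : F a = none <;> simp [h, sq]
  have key : ∑ a, ∑ b, (p * (if F a = none ∧ F b = none ∧ a ≠ b then al p χ F a * B a b else 0) +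
      p * (if F a = none ∧ F b = none ∧ a ≠ b then al p χ F b * B b a else 0) -
      (if F a = none ∧ F b = none ∧ a ≠ b then al p χ F a * al p χ F b else 0)) ≤
      ∑ a, ∑ b, p ^ 2 * if F a = none ∧ F b = none ∧ a ≠ b then B a b * B b a else 0 := by
    refine sum_le_sum fun a _ => sum_le_sum fun b _ => ?_
    split_ifs with h
    · have s : p * B a b - al p χ F b = p * B b a - al p χ F a := by
        simp only [hB, al, Fintype.sum_bool, update_comm h.2.2]
        ring
      have := mul_self_nonneg (p * B a b - al p χ F b)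
      nth_rewrite 2 [s] at this
      linarith
    · simp
  simp only [sum_sub_distrib, sum_add_distrib, ← mul_sum] at key
  rw [e1, e3]
  rw [← e2] at key
  linarith

theorem boch {Z : Face ι → ℝ} (hZ : ∀ G, 0 < Z G) (p : ℝ) (χ : Face ι → ℝ) :
    2 * p * ∑ H, ga p χ H * dn Z (al p χ) H - ∑ F, Z F * ga p χ F ^ 2 +
      ∑ F : Face ι, ∑ a, (if F a = none then Z F * al p χ F a ^ 2 else 0) ≤
    p ^ 2 * ∑ F : Face ι, ∑ a, ∑ b, if F a = none ∧ F b = none ∧ a ≠ b then
      Z F * ((∑ e : Bool, al p χ (update F a (some e)) b) *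
        ∑ e : Bool, al p χ (update F b (some e)) a) else 0 := by
  rw [parts, mul_sum, mul_sum, ← sum_sub_distrib, ← sum_add_distrib]
  refine sum_le_sum fun F _ => ?_
  have := mul_le_mul_of_nonneg_left (boch1 p χ F) (hZ F).le
  have e1 : ∑ a, (if F a = none then Z F * al p χ F a * ∑ e : Bool, ga p χ (update F a (some e))
      else 0) = Z F * ∑ a, if F a = none then al p χ F a *
        ∑ e : Bool, ga p χ (update F a (some e)) else 0 := by
    rw [mul_sum]
    exact sum_congr rfl fun a _ => by split_ifs <;> ring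
  have e2 : ∑ a, (if F a = none then Z F * al p χ F a ^ 2 else 0) =
      Z F * ∑ a, if F a = none then al p χ F a ^ 2 else 0 := by
    rw [mul_sum]
    exact sum_congr rfl fun a _ => by split_ifs <;> ring
  have e3 : ∑ a, ∑ b, (if F a = none ∧ F b = none ∧ a ≠ b then
      Z F * ((∑ e : Bool, al p χ (update F a (some e)) b) *
        ∑ e : Bool, al p χ (update F b (some e)) a) else 0) =
      Z F * ∑ a, ∑ b, if F a = none ∧ F b = none ∧ a ≠ b then
      (∑ e : Bool, al p χ (update F a (some e)) b) * ∑ e : Bool, al p χ (update F b (some e)) a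
      else 0 := by
    rw [mul_sum]
    refine sum_congr rfl fun a _ => ?_
    rw [mul_sum]
    exact sum_congr rfl fun b _ => by split_ifs <;> ring
  rw [e1, e2, e3]
  linarith

theorem exists_chi (Z : Face ι → ℝ) (p : ℝ) :
    ∃ χ : Face ι → ℝ, χ ≠ 0 ∧ ∀ H : Face ι, H ≠ (fun _ => none) →
      ((∀ a, H a ≠ none) → χ H = 0) ∧
      (¬ (∀ a, H a ≠ none) → Z H * ga p χ H = p * dn Z (al p χ) H) := by
  classical
  have a1 : ∀ χ χ' : Face ι → ℝ, ∀ G l, al p (χ + χ') G l = al p χ G l + al p χ' G l := by
    intro χ χ' G l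
    simp only [al, Pi.add_apply, sum_add_distrib]
    ring
  have a2 : ∀ (c : ℝ) (χ : Face ι → ℝ), ∀ G l, al p (c • χ) G l = c * al p χ G l := by
    intro c χ G l
    simp only [al, Pi.smul_apply, smul_eq_mul, ← mul_sum]
    ring
  have g1 : ∀ χ χ' : Face ι → ℝ, ∀ G, ga p (χ + χ') G = ga p χ G + ga p χ' G := by
    intro χ χ' G
    simp only [ga, a1, ← sum_add_distrib]
    exact sum_congr rfl fun l _ => by split_ifs <;> simp
  have g2 : ∀ (c : ℝ) (χ : Face ι → ℝ), ∀ G, ga p (c • χ) G = c * ga p χ G := by
    intro c χ G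
    simp only [ga, a2, mul_sum]
    exact sum_congr rfl fun l _ => by split_ifs <;> simp
  have d1 : ∀ χ χ' : Face ι → ℝ, ∀ G,
      dn Z (al p (χ + χ')) G = dn Z (al p χ) G + dn Z (al p χ') G := by
    intro χ χ' G
    simp only [dn, a1, ← sum_add_distrib]
    exact sum_congr rfl fun l _ => by split_ifs <;> ring
  have d2 : ∀ (c : ℝ) (χ : Face ι → ℝ), ∀ G, dn Z (al p (c • χ)) G = c * dn Z (al p χ) G := by
    intro c χ G
    simp only [dn, a2, mul_sum]
    exact sum_congr rfl fun l _ => by split_ifs <;> ring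
  let L : (Face ι → ℝ) →ₗ[ℝ] (Face ι → ℝ) :=
    { toFun := fun χ H => if H = (fun _ => none) then 0 else if ∀ a, H a ≠ none then χ H else
        Z H * ga p χ H - p * dn Z (al p χ) H
      map_add' := fun χ χ' => funext fun H => by
        simp only [Pi.add_apply, g1, d1]
        split_ifs <;> ring
      map_smul' := fun c χ => funext fun H => by
        simp only [Pi.smul_apply, g2, d2, smul_eq_mul, RingHom.id_apply]
        split_ifs <;> ring }
  have hs : ¬ Surjective L := fun h => by
    obtain ⟨χ, hχ⟩ := h 1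
    have := congrFun hχ fun _ => none
    simp [L] at this
  rw [← LinearMap.injective_iff_surjective, ← LinearMap.ker_eq_bot, ← ne_eq,
    Submodule.ne_bot_iff] at hs
  obtain ⟨χ, hχ, h0⟩ := hs
  refine ⟨χ, h0, fun H hH => ?_⟩
  have := congrFun (LinearMap.mem_ker.1 hχ) H
  simp only [L, LinearMap.coe_mk, AddHom.coe_mk, if_neg hH, Pi.zero_apply] at this
  refine ⟨fun h => by rwa [if_pos h] at this, fun h => ?_⟩
  rw [if_neg h] at this
  linarith

theorem chi_zero {p : ℝ} {χ : Face ι → ℝ} (h1 : ∀ H : Face ι, (∀ a, H a ≠ none) → χ H = 0)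
    (h2 : ∀ G l, G l = none → al p χ G l = 0) : χ = 0 := by
  have : ∀ m, ∀ G : Face ι, (univ.filter fun a => G a = none).card = m → χ G = 0 := by
    intro m
    induction m with
    | zero =>
      intro G hG
      refine h1 G fun a ha => ?_
      have := card_eq_zero.1 hG
      exact notMem_empty a (this ▸ mem_filter.2 ⟨mem_univ a, ha⟩)
    | succ m ih =>
      intro G hG
      obtain ⟨l, hl⟩ := card_pos.1 (hG.symm ▸ Nat.add_one_pos m :
        0 < (univ.filter fun a => G a = none).card)
      have h := h2 G l (mem_filter.1 hl).2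
      have e : ∀ e : Bool, χ (update G l (some e)) = 0 := fun e => ih _ (by
        have : (univ.filter fun a => update G l (some e) a = none) =
            (univ.filter fun a => G a = none).erase l := by
          ext a
          by_cases ha : a = l
          · subst ha
            simp
          · simp [ha]
        rw [this, card_erase_of_mem hl, hG]
        rfl)
      simpa [al, e] using h
  exact funext fun G => this _ G rfl

theorem main [Nontrivial ι] {Z : Face ι → ℝ} (hZ : ∀ G, 0 < Z G) (lc : LC Z) {κ p : ℝ}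
    (hκ : 0 ≤ κ) (top : ∀ H : Face ι, (∀ a, H a ≠ none) → ∑ a, Z (update H a none) ≤ κ * Z H)
    (hp : 2 * p ^ 2 * (1 + κ) < 1) :
    1 ≤ ∑ k, 1 / (1 + p ^ 2 * Z (fun _ => none) *
      ∑ e : Bool, 1 / Z (update (fun _ => none) k (some e))) := by
  classical
  obtain ⟨χ, h0, hχ⟩ := exists_chi Z p
  obtain ⟨O, hO⟩ : ∃ O : Face ι, O = fun _ => none := ⟨_, rfl⟩
  rw [← hO] at hχ ⊢
  have Oa : ∀ a, O a = none := fun a => by rw [hO]
  have nO : ∀ (F : Face ι) a (e : Bool), update F a (some e) ≠ O := fun F a e h => by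
    have := congrFun h a
    simp [Oa] at this
  let u0 : Face ι → ι → ℝ := fun G l => if G = O then 0 else al p χ G l
  let u1 : Face ι → ι → ℝ := fun G l => if G = O then al p χ G l else 0
  have s1 : ∀ H, dn Z (al p χ) H = dn Z u0 H + dn Z u1 H := fun H => by
    simp only [dn, u0, u1, ← sum_add_distrib]
    exact sum_congr rfl fun l _ => by split_ifs <;> ring
  have one : ∀ (H : Face ι) a b, update H a none = O → H b ≠ none → b = a := by
    intro H a b h hb
    by_contra c
    have := congrFun h b
    rw [update_of_ne c, Oa] at this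
    exact hb this
  have s2 : ∀ H, dn Z u0 H * dn Z u1 H = 0 := fun H => by
    rw [dn, dn, sum_mul_sum]
    refine sum_eq_zero fun b _ => sum_eq_zero fun a _ => ?_
    by_cases h : update H a none = O
    · by_cases hb : H b = none
      · simp [hb]
      · rw [one H a b h hb]
        simp [u0, h]
    · simp [u1, h]
  have s3 : ∀ H : Face ι, (∀ a, H a ≠ none) → dn Z u1 H = 0 := fun H hH =>
    sum_eq_zero fun a _ => by
      obtain ⟨b, hb⟩ := exists_ne a
      have : update H a none ≠ O := fun h => hb (one H a b h (hH b))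
      simp [u1, this]
  have s4 : ∀ u, dn Z u O = 0 := fun u => by simp [dn, Oa]
  obtain ⟨U, hU⟩ : ∃ U, U = ∑ G : Face ι, ∑ l, if G l = none then Z G * u0 G l ^ 2 else 0 :=
    ⟨_, rfl⟩
  have nn : ∀ (G : Face ι) l, 0 ≤ if G l = none then Z G * u0 G l ^ 2 else 0 := fun G l => by
    have := hZ G
    split_ifs <;> positivity
  have U0 : 0 ≤ U := hU ▸ sum_nonneg fun G _ => sum_nonneg fun l _ => nn G l
  have t1 : ∑ F : Face ι, ∑ a, (if F a = none then Z F * al p χ F a ^ 2 else 0) =
      U + Z O * ∑ k, al p χ O k ^ 2 := by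
    have : Z O * ∑ k, al p χ O k ^ 2 = ∑ F : Face ι, if F = O then
        Z O * ∑ k, al p χ O k ^ 2 else 0 := by simp
    rw [hU, this, ← sum_add_distrib]
    refine sum_congr rfl fun F _ => ?_
    by_cases h : F = O
    · simp [h, u0, Oa, mul_sum]
    · simp [h, u0]
  have t2 : ∑ H, dn Z u1 H ^ 2 / Z H = ∑ k, al p χ O k ^ 2 *
      (Z O ^ 2 * ∑ e : Bool, 1 / Z (update O k (some e))) := by
    have := parts Z u1 fun H => dn Z u1 H / Z H
    rw [show ∑ H, dn Z u1 H ^ 2 / Z H = ∑ H, dn Z u1 H / Z H * dn Z u1 H from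
        sum_congr rfl fun H _ => by ring, this, sum_eq_single O]
    · refine sum_congr rfl fun k _ => ?_
      have e : ∀ e : Bool, dn Z u1 (update O k (some e)) = Z O * al p χ O k := fun e => by
        rw [dn, sum_eq_single k]
        · simp [up_rm (Oa k), u1]
        · intro b _ hb
          simp [update_of_ne hb, Oa]
        · simp
      simp only [Oa, if_true, e, u1, Fintype.sum_bool]
      ring
    · intro F _ hF
      simp [u1, hF]
    · simp
  have t3 : ∑ H : Face ι, (if ∀ a, H a ≠ none then dn Z u0 H ^ 2 / Z H else 0) ≤ κ * (2 * U) := by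
    have h := parts Z (fun G l => u0 G l ^ 2) fun _ => 1
    have h' : ∑ H, dn Z (fun G l => u0 G l ^ 2) H = 2 * U := by
      simp only [one_mul] at h
      rw [h, hU, mul_sum]
      refine sum_congr rfl fun F _ => ?_
      rw [mul_sum]
      refine sum_congr rfl fun a _ => ?_
      split_ifs <;> simp [mul_comm]
    rw [← h', mul_sum]
    refine sum_le_sum fun H _ => ?_
    have d0 : 0 ≤ dn Z (fun G l => u0 G l ^ 2) H := sum_nonneg fun a _ => by
      have := hZ (update H a none)
      split_ifs <;> positivity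
    split_ifs with hH
    · rw [div_le_iff₀ (hZ H)]
      have cs := sum_sq_le_sum_mul_sum_of_sq_le_mul univ
        (r := fun a => Z (update H a none) * u0 (update H a none) a)
        (f := fun a => Z (update H a none) * u0 (update H a none) a ^ 2)
        (g := fun a => Z (update H a none))
        (fun a _ => by have := hZ (update H a none); positivity) (fun a _ => (hZ _).le)
        (fun a _ => le_of_eq (by ring))
      have := mul_le_mul_of_nonneg_left (top H hH) d0
      simp only [dn, hH, ne_eq, not_false_eq_true, if_true] at this d0 ⊢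
      linarith
    · exact mul_nonneg hκ d0
  have t4 : ∀ H, 2 * p * (ga p χ H * dn Z (al p χ) H) - Z H * ga p χ H ^ 2 -
      p ^ 2 * (dn Z u0 H ^ 2 / Z H) = p ^ 2 * (dn Z u1 H ^ 2 / Z H) -
      p ^ 2 * (if ∀ a, H a ≠ none then dn Z u0 H ^ 2 / Z H else 0) -
      if H = O then Z O * (∑ k, al p χ O k) ^ 2 else 0 := by
    intro H
    have z := (hZ H).ne'
    by_cases h : H = O
    · subst h
      simp [s4, ga, Oa]
    · by_cases hH : ∀ a, H a ≠ none
      · have : ga p χ H = 0 := by simp [ga, hH]
        simp [this, h, hH, s3 H hH]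
      · have e := (hχ H h).2 hH
        have e' : ga p χ H = p * (dn Z u0 H + dn Z u1 H) / Z H := by
          rw [← s1, ← e]
          field_simp
        rw [if_neg h, if_neg hH, e', s1]
        field_simp
        linear_combination p ^ 2 * 2 * s2 H
  have t5 := sum_congr (rfl : (univ : Finset (Face ι)) = univ) fun H _ => t4 H
  simp only [sum_sub_distrib, ← mul_sum, sum_ite_eq', mem_univ, if_true] at t5
  have b := boch hZ p χ
  have l := lc u0
  rw [← hU] at l
  simp only [u0, nO, if_false] at l
  have l' := mul_le_mul_of_nonneg_left l (sq_nonneg p)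
  have t3' := mul_le_mul_of_nonneg_left t3 (sq_nonneg p)
  rw [t1] at b
  rw [t2] at t5
  obtain ⟨w, hw⟩ : ∃ w : ι → ℝ, ∀ k, w k = 1 + p ^ 2 * Z O *
      ∑ e : Bool, 1 / Z (update O k (some e)) := ⟨_, fun _ => rfl⟩
  have w0 : ∀ k, 0 < w k := fun k => by
    have := hZ O
    have : 0 ≤ ∑ e : Bool, 1 / Z (update O k (some e)) :=
      sum_nonneg fun e _ => (one_div_pos.2 (hZ _)).le
    rw [hw]
    positivity
  simp only [← hw]
  have f1 : Z O * ∑ k, al p χ O k ^ 2 * w k = Z O * ∑ k, al p χ O k ^ 2 + p ^ 2 *
      ∑ k, al p χ O k ^ 2 * (Z O ^ 2 * ∑ e : Bool, 1 / Z (update O k (some e))) := by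
    simp only [mul_sum (s := (univ : Finset ι)), ← sum_add_distrib, hw]
    exact sum_congr rfl fun k _ => by ring
  have fin : Z O * ∑ k, al p χ O k ^ 2 * w k + (1 - 2 * p ^ 2 * (1 + κ)) * U ≤
      Z O * (∑ k, al p χ O k) ^ 2 := by
    simp only [u0] at t5 t3'
    linarith
  have pos : 0 < ∑ k, al p χ O k ^ 2 * w k := by
    have ge : ∀ k, 0 ≤ al p χ O k ^ 2 * w k := fun k => by
      have := w0 k
      positivity
    refine (sum_nonneg fun k _ => ge k).lt_of_ne' fun c => h0 ?_
    have z : ∀ k, al p χ O k = 0 := fun k => by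
      have := (sum_eq_zero_iff_of_nonneg fun k _ => ge k).1 c k (mem_univ k)
      simpa [(w0 k).ne'] using this
    have hU0 : U = 0 := by
      simp only [z] at fin
      have : (1 - 2 * p ^ 2 * (1 + κ)) * U ≤ 0 := by simpa using fin
      exact le_antisymm (by nlinarith) U0
    refine chi_zero (p := p) (fun H hH => (hχ H fun c => ?_).1 hH) fun G l hl => ?_
    · obtain ⟨a, -⟩ := exists_pair_ne ι
      exact hH a (c ▸ Oa a)
    · by_cases h : G = O
      · rw [h, z]
      · rw [hU] at hU0
        have a := (sum_eq_zero_iff_of_nonneg fun G _ => sum_nonneg fun l _ => nn G l).1 hU0 G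
          (mem_univ G)
        have a := (sum_eq_zero_iff_of_nonneg fun l _ => nn G l).1 a l (mem_univ l)
        simpa [hl, u0, h, (hZ G).ne'] using a
  have cs := sum_sq_le_sum_mul_sum_of_sq_le_mul univ (r := fun k => al p χ O k)
    (f := fun k => al p χ O k ^ 2 * w k) (g := fun k => 1 / w k)
    (fun k _ => by have := w0 k; positivity) (fun k _ => (one_div_pos.2 (w0 k)).le)
    (fun k _ => le_of_eq (by have := (w0 k).ne'; field_simp))
  have f2 : ∑ k, al p χ O k ^ 2 * w k ≤ (∑ k, al p χ O k) ^ 2 := by
    refine le_of_mul_le_mul_left ?_ (hZ O)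
    nlinarith [mul_nonneg (sub_pos.2 hp).le U0]
  exact le_of_mul_le_mul_left (by linarith) pos

theorem lc_of {n : ℕ} {Z : BG.Face n → ℝ} (h : BG.LC Z) : LC Z := by
  intro u
  have e1 : ∀ F : BG.Face n, Z F * ∑ k ∈ free F, ∑ l ∈ (free F).erase k,
      (∑ e, u (put F k e) l) * (∑ d, u (put F l d) k) = ∑ a, ∑ b,
      (if F a = none ∧ F b = none ∧ a ≠ b then Z F *
        ((∑ e : Bool, u (update F a (some e)) b) * ∑ e : Bool, u (update F b (some e)) a)
      else 0) := fun F => by
    rw [mul_sum, free, sum_filter]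
    refine sum_congr rfl fun a _ => ?_
    by_cases ha : F a = none
    · rw [if_pos ha, mul_sum, ← sum_filter]
      refine sum_congr ?_ fun b _ => rfl
      ext b
      simp [ha, eq_comm, and_comm]
    · simp [ha]
  have e2 : ∀ G : BG.Face n, Z G * ∑ l ∈ free G, u G l ^ 2 =
      ∑ l, (if G l = none then Z G * u G l ^ 2 else 0) := fun G => by
    rw [mul_sum, free, sum_filter]
  have e3 : ∀ H : BG.Face n, ∑ a ∈ supp H, Z (cut H a) * u (cut H a) a = dn Z u H := fun H => by
    rw [supp, sum_filter]
    rfl
  have := h u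
  simp only [e1, e2, e3] at this
  exact this

end Pool.Agent.BG.Alg70

namespace Pool.Agent.BG

open Finset

theorem alg' : ALG := by
  intro n Z κ hn hκ hZ lc top
  have S0 : ∀ k e, 0 < Z (emp n) / Z (put (emp n) k e) := fun k e => div_pos (hZ _) (hZ _)
  rcases (Nat.succ_le_of_lt hn).eq_or_lt with rfl | h2
  · have t : ∀ e, Z (emp 1) / Z (put (emp 1) 0 e) ≤ κ := fun e => by
      have := top fun _ => e
      have e1 : full (fun _ : Fin 1 => e) = put (emp 1) 0 e := funext fun a => by
        rw [Subsingleton.elim a 0, put_self]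
        rfl
      rw [Fin.sum_univ_one, e1, cut_put rfl] at this
      rwa [div_le_iff₀ (hZ _)]
    have a := S0 0 true
    have b := S0 0 false
    rw [Fin.sum_univ_one, le_div_iff₀ (by linarith)]
    have c := t true
    have d := t false
    rcases le_total κ 1 with h | h
    · nlinarith
    · nlinarith
  have : Nontrivial (Fin n) := Fin.nontrivial_iff_two_le.2 h2
  refine le_of_forall_lt_imp_le_of_dense fun c hc => ?_
  rcases le_or_gt c 0 with c0 | c0
  · exact c0.trans (sum_nonneg fun k _ => by
      have a := S0 k true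
      have b := S0 k false
      positivity)
  have hp : √(c / 2) ^ 2 = c / 2 := Real.sq_sqrt (by linarith)
  have key := Alg70.main hZ (Alg70.lc_of lc) hκ (p := √(c / 2)) (fun H hH => by
    choose σ hσ using fun a => Option.ne_none_iff_exists'.1 (hH a)
    have e : H = full σ := funext hσ
    rw [e]
    exact top σ) (by rw [hp]; nlinarith)
  have := mul_le_mul_of_nonneg_left key c0.le
  rw [mul_one, mul_sum] at this
  refine this.trans (sum_le_sum fun k _ => ?_)
  have a := S0 k true
  have b := S0 k false
  have e : √(c / 2) ^ 2 * Z (fun _ => none) *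
      ∑ e : Bool, 1 / Z (Function.update (fun _ => none) k (some e)) =
      c / 2 * (Z (emp n) / Z (put (emp n) k true) + Z (emp n) / Z (put (emp n) k false)) := by
    rw [hp, Fintype.sum_bool]
    change c / 2 * Z (emp n) * (1 / Z (put (emp n) k true) + 1 / Z (put (emp n) k false)) = _
    ring
  rw [e, mul_one_div, div_le_div_iff₀ (by positivity) (by linarith)]
  nlinarith

theorem alg (_ : TRICKLE) : ALG := alg'

end Pool.Agent.BG
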