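import Pool.Agent.Lib.MP_79af62_gt.BG.St

/-! Assembly of the blocks of `BG/St.lean`. -/

namespace Pool.Agent.BG

open Finset Pool.Agent.Lib.MP_79af62_gt.Glue

theorem data_of (hG : GAUGE) (hR : REC) (hS : SHIFT) (hF : FTC) (hM : MID) (hP : PT) (hT : TOP)
    (hA : AXIS) : DATA := by
  intro n y h x ε hε hy h1 hx hb H
  let M : ℝ := ∑ σ : Fin n → Bool, ∑ a, (∑ i, y σ i) / y σ a + 1
  have hq : ∀ σ a, 0 ≤ (∑ i, y σ i) / y σ a := fun σ a =>
    div_nonneg (sum_nonneg fun i _ => (hy σ i).le) (hy σ a).le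
  have hM1 : ∀ σ, ∑ a, (∑ i, y σ i) / y σ a ≤ M := fun σ => by
    have := single_le_sum (f := fun σ : Fin n → Bool => ∑ a, (∑ i, y σ i) / y σ a)
      (fun σ _ => sum_nonneg fun a _ => hq σ a) (mem_univ σ)
    simp only [M]
    linarith
  have M0 : 0 < M := by
    have : 0 ≤ ∑ σ : Fin n → Bool, ∑ a, (∑ i, y σ i) / y σ a :=
      sum_nonneg fun σ _ => sum_nonneg fun a _ => hq σ a
    simp only [M]
    linarith
  obtain ⟨g, L, gg, g1, g2⟩ := hG n y h x (ε / M) (div_pos hε M0) hy hx H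
  obtain ⟨F, rF⟩ := hR n g _ L gg
  have sF := hS n g _ L F gg rF
  have fF := hF n g _ L F gg rF sF
  have mF := hM n g _ L F gg rF sF fF
  refine ⟨fun G => F G 0, fun G => rF.pos G 0, hP n g _ L F gg rF sF fF mF, fun σ => ?_,
    fun k e => ?_⟩
  · have p := rF.pos (full σ) 0
    have t : ∀ a, F (cut (full σ) a) 0 ≤ (∑ i, y σ i) / y σ a * (ε / M * F (full σ) 0) := by
      intro a
      have := hT n g _ L F gg rF sF fF σ (y σ) (hy σ) (g1 σ) a
      rw [div_mul_eq_mul_div, le_div_iff₀ (hy σ a)]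
      linarith
    refine (sum_le_sum fun a _ => t a).trans ?_
    rw [← sum_mul]
    have c0 : 0 ≤ ε / M * F (full σ) 0 := (mul_pos (div_pos hε M0) p).le
    refine (mul_le_mul_of_nonneg_right (hM1 σ) c0).trans (le_of_eq ?_)
    field_simp
  · have a := hA n g _ L F gg rF k e
    have p := rF.pos (put (emp n) k e) 0
    have := mul_le_mul_of_nonneg_right (show h k e - 1 - ε ≤ g (ax k e 1) - 1 by
      linarith [g2 k e]) p.le
    exact this.trans a.le

theorem core_of (hD : DATA) (hS : SUM) (hA : ALG) (n : ℕ) (hn : 0 < n) : Core n := by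
  intro y h x hy h1 hx hb H
  have key : ∀ ε : ℝ, 0 < ε → ε < 1 → 1 - ε ≤ ∑ j, 2 / (h j true + h j false - 2 * ε) := by
    intro ε hε hε1
    obtain ⟨Z, Z0, lc, tp, ax⟩ := hD n y h x ε hε hy h1 hx hb H
    refine (hA n Z ε hn hε.le Z0 (hS n Z Z0 lc) tp).trans (sum_le_sum fun k _ => ?_)
    have a : ∀ e, h k e - 1 - ε ≤ Z (emp n) / Z (put (emp n) k e) := fun e =>
      (le_div_iff₀ (Z0 _)).2 (ax k e)
    refine div_le_div_of_nonneg_left zero_le_two ?_ ?_
    · linarith [h1 k true, h1 k false]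
    · linarith [a true, a false]
  have c : Filter.Tendsto (fun ε : ℝ => ∑ j, 2 / (h j true + h j false - 2 * ε) - (1 - ε))
      (nhdsWithin 0 (Set.Ioi 0)) (nhds (∑ j, 2 / (h j true + h j false - 2 * 0) - (1 - 0))) := by
    refine Filter.Tendsto.mono_left ?_ nhdsWithin_le_nhds
    refine Filter.Tendsto.sub (tendsto_finsetSum _ fun j _ => ?_)
      (ContinuousAt.tendsto (f := fun ε : ℝ => 1 - ε) (by fun_prop))
    refine ContinuousAt.tendsto (f := fun ε : ℝ => 2 / (h j true + h j false - 2 * ε))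
      (ContinuousAt.div (by fun_prop) (by fun_prop) ?_)
    have := h1 j true
    have := h1 j false
    exact ne_of_gt (by linarith)
  have := ge_of_tendsto c (by
    filter_upwards [Ioo_mem_nhdsGT (show (0 : ℝ) < 1 by norm_num)] with ε hε
    exact sub_nonneg.2 (key ε hε.1 hε.2))
  simpa using this

end Pool.Agent.BG
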