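import Pool.Agent.Lib.MP_79af62_gt.BG.St

/-! The integrals along the coordinate half-axes. -/

namespace Pool.Agent.BG

open Finset Set MeasureTheory Pool.Agent.Lib.MP_79af62_gt.Glue

theorem axis : AXIS := by
  intro n g η L F hg hF k e
  have h0 : g 0 = 0 := by simpa using hg.hom 0 0 le_rfl
  have h1 : ∑ i, |ax k e 1 i| = 1 := by
    rw [Finset.sum_eq_single k (fun b _ hb => by simp [ax, hb]) (by simp)]
    cases e <;> simp [ax, sg]
  have h2 : 1 - g (ax k e 1) < 0 := by
    have := hg.low (ax k e 1)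
    rw [h1] at this
    linarith [hg.eta]
  have h3 : ∀ s ∈ Ioi (0 : ℝ), Real.exp s * F (emp n) (0 + ax k e s) =
      Real.exp ((1 - g (ax k e 1)) * s) := fun s hs => by
    have h4 : ax k e s = s • ax k e 1 := by
      ext i
      by_cases hi : i = k
      · simp [ax, hi, mul_comm]
      · simp [ax, hi]
    rw [hF.base, zero_add, h4, hg.hom s _ (le_of_lt hs), ← Real.exp_add]
    congr 1
    ring
  rw [hF.step (emp n) k (by simp [emp]) e 0, setIntegral_congr_fun measurableSet_Ioi h3,
    integral_exp_mul_Ioi h2, hF.base, h0]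
  have h5 : 1 - g (ax k e 1) ≠ 0 := h2.ne
  simp only [mul_zero, Real.exp_zero, neg_zero]
  field_simp
  ring

end Pool.Agent.BG
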