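import Mathlib
import Pool.Agent.Lib.MP_79af62_gt.BG.St
import Pool.Agent.Lib.MP_79af62_gt.DatD

/-! Block DATA, proved directly from the soft-maximum family. -/

namespace Pool.Agent.BG

open Finset Filter Topology Pool.Agent.Lib.MP_79af62_gt Pool.Agent.Lib.MP_79af62_gt.Glue

theorem ev_pos {ι : Type} [Finite ι] (f : ι → ℝ → ℝ) (c : ι → ℝ) (hf : ∀ i, Continuous (f i))
    (h0 : ∀ i, f i 0 < c i) : ∃ t, 0 < t ∧ ∀ i, f i t < c i := by
  have : ∀ᶠ t in 𝓝[>] (0 : ℝ), ∀ i, f i t < c i :=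
    eventually_all.2 fun i => ((hf i).continuousAt.eventually (gt_mem_nhds (h0 i))).filter_mono
      nhdsWithin_le_nhds
  obtain ⟨t, ht, h⟩ := (eventually_mem_nhdsWithin.and this).exists
  exact ⟨t, ht, h⟩

theorem data : DATA := by
  intro n y h x ε hε hy h1 hx _ H
  obtain ⟨m, m0, hm⟩ := ev_pos (fun _ : (Fin n → Bool) × Fin n => fun t => t)
    (fun q => y q.1 q.2) (fun _ => continuous_id) (fun q => hy _ _)
  obtain ⟨η, η0, hη⟩ := ev_pos (fun σ : Fin n → Bool => fun t => t * ∑ i, y σ i)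
    (fun _ => ε * m) (fun _ => by fun_prop) (fun _ => by simpa using mul_pos hε m0)
  obtain ⟨κ, κ0, hκ⟩ := ev_pos (fun q : Fin n × Bool => fun t => -((h q.1 q.2 - 1) *
      Real.exp (-t * Real.log (Fintype.card ((Fin n × Bool) ⊕ (Fin n → Bool))))))
    (fun q => -(h q.1 q.2 - 1 - ε)) (fun _ => by fun_prop) (fun q => by
      simp only [neg_zero, zero_mul, Real.exp_zero]
      linarith)
  obtain ⟨Z, kap, Z0, lc, top, ze, axis⟩ := Dat.data
    (V := (Fin n × Bool) ⊕ (Fin n → Bool))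
    (Sum.elim (fun q => x q.1 q.2) fun σ k => sg (σ k) * (1 + η)) κ0 (show 1 < 1 + η by linarith)
    (fun σ => ⟨Sum.inr σ, fun k => by simp [sg_sq]⟩)
  refine ⟨Z, Z0, fun u δ hδ => ⟨fun H a => -((Z (cut H a) + Dat.sgn (H a) * kap (cut H a) a) *
    u (cut H a) a ^ 2), fun G a ha => ?_, fun H => ?_⟩, fun σ => ?_, fun k e => ?_⟩
  · simp only [cut_put (mem_free.1 ha), put_self, Dat.sgn, sg, if_true, Bool.false_eq_true,
      if_false]
    linarith
  · have := (le_div_iff₀ (Z0 H)).2 (lc H fun a => u (cut H a) a)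
    rw [sum_neg_distrib, ← sub_eq_add_neg]
    exact le_trans this (le_add_of_nonneg_right hδ.le)
  · have e : Dat.supp (full σ) = univ := by
      ext a
      simp [Dat.mem_supp, full]
    have S0 : 0 ≤ η * ∑ i, y σ i := mul_nonneg η0.le (sum_nonneg fun i _ => (hy σ i).le)
    have t1 := top (full σ) (y σ) (η * ∑ i, y σ i) (fun i => by
      rw [e]
      rcases i with q | τ
      · exact le_trans (H q.1 q.2 σ) S0
      · rw [mul_sum]
        refine sum_le_sum fun a _ => ?_
        have a1 : sg (σ a) * sg (τ a) ≤ 1 := sg_le _ _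
        have a2 : Dat.sgn (full σ a) = sg (σ a) := rfl
        have a3 : sg (σ a) * (sg (τ a) * (1 + η)) - 1 ≤ η := by nlinarith
        simp only [Sum.elim_inr, a2]
        rw [mul_comm η]
        exact mul_le_mul_of_nonneg_left a3 (hy σ a).le)
    rw [e] at t1
    have t2 : (∑ a, Z (cut (full σ) a)) * m ≤ ∑ a, Z (cut (full σ) a) * y σ a := by
      rw [sum_mul]
      exact sum_le_sum fun a _ => mul_le_mul_of_nonneg_left (hm (σ, a)).le (Z0 _).le
    have t3 := mul_le_mul_of_nonneg_right (hη σ).le (Z0 (full σ)).le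
    refine le_of_mul_le_mul_right (t2.trans (t1.trans (t3.trans_eq ?_))) m0
    ring
  · have a1 := axis k e (Sum.inl (k, e)) (h k e - 1) (by linarith [h1 k e])
      (by simp only [Sum.elim_inl, hx]; linarith)
    have a2 := mul_le_mul_of_nonneg_right (neg_lt_neg_iff.1 (hκ (k, e))).le
      (Z0 (put (emp n) k e)).le
    have a3 := mul_le_mul_of_nonneg_left a1 (Z0 (emp n)).le
    rw [← ze] at a2
    refine a2.trans (le_of_eq_of_le ?_ (a3.trans_eq (mul_one _)))
    exact (mul_assoc _ _ _).trans (mul_left_comm _ _ _)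

end Pool.Agent.BG
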