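import Pool.Agent.Lib.MP_79af62_gt.BG.St

/-! Block FTC. -/

namespace Pool.Agent.BG

open Set MeasureTheory Filter Topology Pool.Agent.Lib.MP_79af62_gt.Glue

theorem ftc_shift (f : ℝ → ℝ) (s : ℝ) : ∫ t in Ioi 0, f (s + t) = ∫ t in Ioi s, f t := by
  rw [← integral_indicator measurableSet_Ioi, ← integral_indicator measurableSet_Ioi,
    ← integral_add_left_eq_self ((Ioi s).indicator f) s]
  refine integral_congr_ae (Eventually.of_forall fun t => ?_)
  simp only
  by_cases ht : t ∈ Ioi (0 : ℝ)
  · rw [indicator_of_mem ht, indicator_of_mem (show s + t ∈ Ioi s from lt_add_of_pos_right s ht)]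
  · rw [indicator_of_notMem ht, indicator_of_notMem
      (show s + t ∉ Ioi s from fun h => ht (pos_of_lt_add_right (a := s) h))]

theorem ftc : FTC := by
  intro n g η L F gg rF sF
  have C : ∀ G, Continuous (F G) := fun G => continuous_iff_continuousAt.2 fun y => by
    have a : Tendsto (fun z : Fin n → ℝ => Real.exp (-(L * ∑ i, |(z - y) i|)) * F G y) (𝓝 y)
        (𝓝 (F G y)) := by
      have : Continuous fun z : Fin n → ℝ => Real.exp (-(L * ∑ i, |(z - y) i|)) * F G y := by
        fun_prop
      simpa using this.tendsto y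
    have b : Tendsto (fun z : Fin n → ℝ => Real.exp (L * ∑ i, |(y - z) i|) * F G y) (𝓝 y)
        (𝓝 (F G y)) := by
      have : Continuous fun z : Fin n → ℝ => Real.exp (L * ∑ i, |(y - z) i|) * F G y := by
        fun_prop
      simpa using this.tendsto y
    refine tendsto_of_tendsto_of_tendsto_of_le_of_le a b (fun z => ?_) fun z => ?_
    · have := sF G y (z - y)
      rw [add_sub_cancel] at this
      simp only
      rw [Real.exp_neg, inv_mul_le_iff₀ (Real.exp_pos _)]
      exact this.trans (mul_le_mul_of_nonneg_right (Real.exp_le_exp.2 (gg.up _)) (rF.pos _ _).le)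
    · have := sF G z (y - z)
      rw [add_sub_cancel] at this
      exact this.trans (mul_le_mul_of_nonneg_right (Real.exp_le_exp.2 (gg.up _)) (rF.pos _ _).le)
  refine ⟨C, fun G a ha e x τ => ?_⟩
  have c := C G
  have ck : Continuous fun s : ℝ => Real.exp s * F G (x + ax a e s) := by
    have e1 : ∀ s : ℝ, ax a e s = s • ax a e 1 := fun s => by
      rw [ax, ax, ← Pi.single_smul', smul_eq_mul, mul_one, mul_comm]
    refine Continuous.congr (f := fun s : ℝ => Real.exp s * F G (x + s • ax a e 1)) (by fun_prop)
      fun s => by rw [e1 s]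
  have i0 := rF.int G a ha e x
  have i1 : IntegrableOn (fun s : ℝ => Real.exp s * F G (x + ax a e s)) (Ioi τ) :=
    ((ck.continuousOn.integrableOn_Icc (a := τ) (b := 0)).union i0).mono_set fun s hs =>
      (le_or_gt s 0).imp (fun h => ⟨le_of_lt hs, h⟩) id
  rw [← intervalIntegral.integral_Ioi_sub_Ioi' i0 i1, rF.step G a ha, rF.step G a ha,
    sub_sub_cancel, ← ftc_shift _ τ, ← integral_const_mul]
  refine integral_congr_ae (Eventually.of_forall fun t => ?_)
  simp only
  rw [← mul_assoc, ← Real.exp_add, add_assoc, ax, ax, ax, ← Pi.single_add, ← mul_add]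

end Pool.Agent.BG
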