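import Mathlib
import Pool.Agent.Lib.MP_79af62_gt.BG.St

/-! Block GAUGE: the support function of the points and the cube, plus `η` times the sum of
absolute values. -/

namespace Pool.Agent.BG

open Finset Pool.Agent.Lib.MP_79af62_gt.Glue

/-- The finitely many sublinear functions whose maximum is taken. -/
def gaugeTerm {n : ℕ} (x : Fin n → Bool → Fin n → ℝ) (o : Option (Fin n × Bool))
    (v : Fin n → ℝ) : ℝ :=
  o.elim (∑ i, |v i|) fun q => ∑ i, x q.1 q.2 i * v i

/-- Their maximum. -/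
noncomputable def gaugeMax {n : ℕ} (x : Fin n → Bool → Fin n → ℝ) (v : Fin n → ℝ) : ℝ :=
  univ.sup' ⟨none, mem_univ _⟩ fun o => gaugeTerm x o v

theorem le_gaugeMax {n : ℕ} (x : Fin n → Bool → Fin n → ℝ) (o : Option (Fin n × Bool))
    (v : Fin n → ℝ) : gaugeTerm x o v ≤ gaugeMax x v :=
  le_sup' (fun o => gaugeTerm x o v) (mem_univ o)

theorem gaugeMax_le {n : ℕ} {x : Fin n → Bool → Fin n → ℝ} {v : Fin n → ℝ} {c : ℝ}
    (h0 : ∑ i, |v i| ≤ c) (h1 : ∀ j e, ∑ i, x j e i * v i ≤ c) : gaugeMax x v ≤ c := by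
  refine sup'_le _ _ fun o _ => ?_
  rcases o with _ | q
  exacts [h0, h1 q.1 q.2]

theorem abs_sg_one (e : Bool) : |sg e| = 1 := by cases e <;> simp [sg]

theorem sum_abs_add {n : ℕ} (v w : Fin n → ℝ) :
    ∑ i, |(v + w) i| ≤ ∑ i, |v i| + ∑ i, |w i| := by
  rw [← sum_add_distrib]
  exact sum_le_sum fun i _ => abs_add_le _ _

theorem sum_abs_smul {n : ℕ} {t : ℝ} (ht : 0 ≤ t) (v : Fin n → ℝ) :
    ∑ i, |(t • v) i| = t * ∑ i, |v i| := by
  rw [mul_sum]
  exact sum_congr rfl fun i _ => by rw [Pi.smul_apply, smul_eq_mul, abs_mul, abs_of_nonneg ht]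

theorem gaugeTerm_smul {n : ℕ} (x : Fin n → Bool → Fin n → ℝ) (o : Option (Fin n × Bool))
    {t : ℝ} (ht : 0 ≤ t) (v : Fin n → ℝ) : gaugeTerm x o (t • v) = t * gaugeTerm x o v := by
  rcases o with _ | q
  · exact sum_abs_smul ht v
  · change ∑ i, x q.1 q.2 i * (t • v) i = t * ∑ i, x q.1 q.2 i * v i
    rw [mul_sum]
    exact sum_congr rfl fun i _ => by rw [Pi.smul_apply, smul_eq_mul]; ring

theorem gaugeMax_smul {n : ℕ} (x : Fin n → Bool → Fin n → ℝ) {t : ℝ} (ht : 0 ≤ t)
    (v : Fin n → ℝ) : gaugeMax x (t • v) = t * gaugeMax x v := by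
  refine le_antisymm (sup'_le _ _ fun o _ => ?_) ?_
  · rw [gaugeTerm_smul x o ht]
    exact mul_le_mul_of_nonneg_left (le_gaugeMax x o v) ht
  · obtain ⟨o, -, ho⟩ := exists_mem_eq_sup' (⟨none, mem_univ _⟩ :
      (univ : Finset (Option (Fin n × Bool))).Nonempty) fun o => gaugeTerm x o v
    have e : gaugeMax x v = gaugeTerm x o v := ho
    rw [e, ← gaugeTerm_smul x o ht]
    exact le_gaugeMax x o _

theorem gauge : GAUGE := by
  intro n y h x η hη hy hx H
  have A0 : ∀ v : Fin n → ℝ, 0 ≤ ∑ i, |v i| := fun v => sum_nonneg fun i _ => abs_nonneg _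
  have low : ∀ v, ∑ i, |v i| ≤ gaugeMax x v := fun v => le_gaugeMax x none v
  have lin : ∀ j e v, ∑ i, x j e i * v i ≤ gaugeMax x v := fun j e v =>
    le_gaugeMax x (some (j, e)) v
  have M0 : 0 ≤ ∑ j, ∑ e, ∑ i, |x j e i| := by positivity
  refine ⟨fun v => gaugeMax x v + η * ∑ i, |v i|, 1 + η + ∑ j, ∑ e, ∑ i, |x j e i|,
    ⟨hη, fun v w => ?_, fun t v ht => ?_, fun v => ?_, fun v => ?_⟩, fun σ => ?_, fun k e => ?_⟩
  · have h1 := sum_abs_add v w
    have h2 : gaugeMax x (v + w) ≤ gaugeMax x v + gaugeMax x w :=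
      gaugeMax_le (h1.trans (add_le_add (low v) (low w))) fun j e => by
        refine le_trans (le_of_eq ?_) (add_le_add (lin j e v) (lin j e w))
        rw [← sum_add_distrib]
        exact sum_congr rfl fun i _ => by rw [Pi.add_apply, mul_add]
    have h3 := mul_le_mul_of_nonneg_left h1 hη.le
    linarith
  · rw [gaugeMax_smul x ht, sum_abs_smul ht]
    ring
  · have := low v
    linarith
  · have h2 : gaugeMax x v ≤ (1 + ∑ j, ∑ e, ∑ i, |x j e i|) * ∑ i, |v i| := by
      refine gaugeMax_le (by nlinarith [A0 v]) fun j e => ?_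
      have b : ∀ i, |x j e i| ≤ 1 + ∑ j, ∑ e, ∑ i, |x j e i| := fun i => by
        have b1 : |x j e i| ≤ ∑ i, |x j e i| :=
          single_le_sum (f := fun i => |x j e i|) (fun _ _ => abs_nonneg _) (mem_univ i)
        have b2 : ∑ i, |x j e i| ≤ ∑ e, ∑ i, |x j e i| :=
          single_le_sum (f := fun e => ∑ i, |x j e i|) (fun _ _ => A0 _) (mem_univ e)
        have b3 : ∑ e, ∑ i, |x j e i| ≤ ∑ j, ∑ e, ∑ i, |x j e i| :=
          single_le_sum (f := fun j => ∑ e, ∑ i, |x j e i|)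
            (fun _ _ => sum_nonneg fun _ _ => A0 _) (mem_univ j)
        linarith
      rw [mul_sum]
      refine sum_le_sum fun i _ => (le_abs_self _).trans ?_
      rw [abs_mul]
      exact mul_le_mul_of_nonneg_right (b i) (abs_nonneg _)
    linarith
  · have e : ∑ i, |sg (σ i) * y σ i| = ∑ i, y σ i :=
      sum_congr rfl fun i _ => by rw [abs_mul, abs_sg_one, one_mul, abs_of_pos (hy σ i)]
    have h2 : gaugeMax x (fun i => sg (σ i) * y σ i) ≤ ∑ i, y σ i :=
      gaugeMax_le e.le fun j b => by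
        have h3 := H j b σ
        have h4 : ∑ i, y σ i * (sg (σ i) * x j b i - 1) =
            ∑ i, x j b i * (sg (σ i) * y σ i) - ∑ i, y σ i := by
          rw [← sum_sub_distrib]
          exact sum_congr rfl fun i _ => by ring
        linarith
    simp only [e]
    linarith
  · have h1 := lin k e (ax k e 1)
    have h2 : ∑ i, x k e i * ax k e 1 i = h k e := by
      rw [sum_eq_single k (fun i _ hi => by simp [ax, hi]) (by simp), ← hx k e]
      simp [ax, mul_comm]
    have h3 := mul_nonneg hη.le (A0 (ax k e 1))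
    linarith

end Pool.Agent.BG
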