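import Mathlib
import Pool.Agent.Lib.MP_79af62_gt.BG.St

/-! The summed second-order log-concavity `LC`, from the shift formula and midpoint
log-concavity. -/

open Filter Topology Finset

namespace Pool.Agent.BG.LCx

variable {ι V : Type*} [DecidableEq ι] [NormedAddCommGroup V] [NormedSpace ℝ V]

/-- The one-direction equation `(1 + ∂_e) A = - B`. -/
def Ode (A B : V → ℝ) (e : V) : Prop :=
  ∀ z τ, HasDerivAt (fun τ : ℝ => Real.exp τ * A (z + τ • e)) (-(Real.exp τ * B (z + τ • e))) τ

/-- One coordinate, moving base point. -/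
theorem one_step {A B : V → ℝ} (hB : Continuous B) {e : V} (v : ℝ) (ode : Ode A B e)
    {z : ℝ → V} {x : V} (hz : Tendsto z (𝓝[≠] 0) (𝓝 x)) :
    Tendsto (fun t => t⁻¹ * (Real.exp (t * v) * A (z t + (t * v) • e) - A (z t)))
      (𝓝[≠] 0) (𝓝 (-(v * B x))) := by
  have key : ∀ t : ℝ, ∃ c ∈ Set.Ioo (0 : ℝ) 1,
      Real.exp (t * v) * A (z t + (t * v) • e) - A (z t) =
        -(Real.exp (c * (t * v)) * B (z t + (c * (t * v)) • e)) * (t * v) := by
    intro t
    have d : ∀ u : ℝ, HasDerivAt
        (fun u : ℝ => Real.exp (u * (t * v)) * A (z t + (u * (t * v)) • e))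
        (-(Real.exp (u * (t * v)) * B (z t + (u * (t * v)) • e)) * (t * v)) u :=
      fun u => by
        have h := (ode (z t) (u * (t * v))).comp u (hasDerivAt_mul_const (x := u) (t * v))
        exact h
    obtain ⟨c, hc, e⟩ := exists_hasDerivAt_eq_slope _ _ zero_lt_one
      (fun u _ => (d u).continuousAt.continuousWithinAt) (fun u _ => d u)
    refine ⟨c, hc, ?_⟩
    rw [e]
    simp
  choose c hc he using key
  have t0 : Tendsto (fun t : ℝ => c t * (t * v)) (𝓝[≠] 0) (𝓝 0) := by
    have h1 : Tendsto (fun t : ℝ => |t * v|) (𝓝[≠] 0) (𝓝 0) := by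
      have : Continuous fun t : ℝ => |t * v| := by fun_prop
      simpa using (this.tendsto 0).mono_left nhdsWithin_le_nhds
    refine squeeze_zero_norm (fun t => ?_) h1
    rw [Real.norm_eq_abs, abs_mul, abs_of_pos (hc t).1]
    exact mul_le_of_le_one_left (abs_nonneg _) (hc t).2.le
  have c1 : Continuous fun p : V × ℝ => -(v * (Real.exp p.2 * B (p.1 + p.2 • e))) := by fun_prop
  have := (c1.tendsto (x, 0)).comp (hz.prodMk_nhds t0)
  simp only [Real.exp_zero, zero_smul, add_zero, one_mul] at this
  refine this.congr' ?_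
  filter_upwards [self_mem_nhdsWithin] with t ht
  have ht : t ≠ 0 := ht
  simp only [Function.comp]
  rw [he]
  field_simp

/-- Several coordinates, moving base point. -/
theorem many_steps {A : V → ℝ} {B : ι → V → ℝ} (hB : ∀ a, Continuous (B a))
    (e : ι → V) (v : ι → ℝ) (S : Finset ι) (ode : ∀ a ∈ S, Ode A (B a) (e a))
    {z : ℝ → V} {x : V} (hz : Tendsto z (𝓝[≠] 0) (𝓝 x)) :
    Tendsto (fun t => t⁻¹ * (Real.exp (t * ∑ a ∈ S, v a) *
        A (z t + t • ∑ a ∈ S, v a • e a) - A (z t)))
      (𝓝[≠] 0) (𝓝 (-∑ a ∈ S, v a * B a x)) := by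
  induction S using Finset.induction_on with
  | empty => simp
  | insert b S hb ih =>
    have ih := ih fun a ha => ode a (mem_insert_of_mem ha)
    have c1 : Continuous fun t : ℝ => t • ∑ a ∈ S, v a • e a := by fun_prop
    have hz' : Tendsto (fun t => z t + t • ∑ a ∈ S, v a • e a) (𝓝[≠] 0) (𝓝 x) := by
      simpa using hz.add ((c1.tendsto 0).mono_left nhdsWithin_le_nhds)
    have h1 := one_step (hB b) (v b) (ode b (mem_insert_self _ _)) hz'
    have c2 : Continuous fun t : ℝ => Real.exp (t * ∑ a ∈ S, v a) := by fun_prop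
    have h2 := (((c2.tendsto 0).mono_left nhdsWithin_le_nhds).mul h1).add ih
    simp only [zero_mul, Real.exp_zero, one_mul] at h2
    simp only [sum_insert hb]
    rw [neg_add]
    refine h2.congr fun t => ?_
    rw [mul_add t, Real.exp_add, smul_add, smul_smul,
      add_comm ((t * v b) • e b), ← add_assoc]
    ring

/-- The derivative along a line. -/
theorem line_deriv {A : V → ℝ} {B : ι → V → ℝ} (hB : ∀ a, Continuous (B a))
    (e : ι → V) (v : ι → ℝ) (S : Finset ι) (ode : ∀ a ∈ S, Ode A (B a) (e a)) (t : ℝ) :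
    HasDerivAt (fun t : ℝ => Real.exp (t * ∑ a ∈ S, v a) * A (t • ∑ a ∈ S, v a • e a))
      (-∑ a ∈ S, v a * (Real.exp (t * ∑ a ∈ S, v a) * B a (t • ∑ a ∈ S, v a • e a))) t := by
  rw [hasDerivAt_iff_tendsto_slope_zero]
  have h := (many_steps hB e v S ode (z := fun _ => t • ∑ a ∈ S, v a • e a)
    tendsto_const_nhds).const_mul (Real.exp (t * ∑ a ∈ S, v a))
  have e1 : Real.exp (t * ∑ a ∈ S, v a) * -∑ a ∈ S, v a * B a (t • ∑ a ∈ S, v a • e a) =
      -∑ a ∈ S, v a * (Real.exp (t * ∑ a ∈ S, v a) * B a (t • ∑ a ∈ S, v a • e a)) := by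
    rw [mul_neg, mul_sum]
    exact congrArg _ (sum_congr rfl fun a _ => by ring)
  rw [e1] at h
  refine h.congr fun u => ?_
  rw [add_mul, Real.exp_add, add_smul, smul_eq_mul]
  ring

/-- One face: the midpoint defect `k`, its derivative, and the limit up to the diagonal term. -/
theorem face {A : V → ℝ} {B : ι → V → ℝ} {C : ι → ι → V → ℝ}
    (hB : ∀ a, Continuous (B a)) (hC : ∀ a b, Continuous (C a b))
    (e : ι → V) (v : ι → ℝ) (S : Finset ι) (ode : ∀ a ∈ S, Ode A (B a) (e a))
    (ode2 : ∀ a ∈ S, ∀ b ∈ S.erase a, Ode (B a) (C a b) (e b)) (A0 : 0 < A 0)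
    (mid : ∀ x, A x * A (-x) ≤ A 0 ^ 2) :
    ∃ k k' : ℝ → ℝ, k 0 = 0 ∧ (∀ t, 0 ≤ k t) ∧ (∀ t, HasDerivAt k (k' t) t) ∧
      Tendsto (fun t => t⁻¹ * k' t - ∑ a ∈ S, t⁻¹ * (v a *
          (Real.exp (t * v a) * B a ((t * v a) • e a) -
            Real.exp (-(t * v a)) * B a (-((t * v a) • e a))))) (𝓝[≠] 0)
        (𝓝 (2 * (∑ a ∈ S, v a * B a 0) ^ 2 / A 0 -
          2 * ∑ a ∈ S, ∑ b ∈ S.erase a, v a * v b * C a b 0)) := by
  set w : V := ∑ a ∈ S, v a • e a with hw
  set m : ℝ := ∑ a ∈ S, v a with hm
  let g : ℝ → ℝ := fun t => Real.exp (t * m) * A (t • w)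
  let p : ℝ → ℝ := fun t => ∑ a ∈ S, v a * (Real.exp (t * m) * B a (t • w))
  let d : ℝ → ℝ := fun t => ∑ a ∈ S, v a * (Real.exp (t * v a) * B a ((t * v a) • e a))
  have hg : ∀ t, HasDerivAt g (-p t) t := line_deriv hB e v S ode
  have hg' : ∀ t, HasDerivAt (fun t => g (-t)) (p (-t)) t := fun t => by
    have h := (hg (-t)).comp t (hasDerivAt_neg t)
    exact h.congr_deriv (by ring)
  have g0 : g 0 = A 0 := by simp [g]
  have neg : Tendsto (fun t : ℝ => -t) (𝓝[≠] 0) (𝓝[≠] 0) :=
    tendsto_nhdsWithin_iff.2 ⟨by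
      simpa using (continuous_neg.tendsto (0 : ℝ)).mono_left nhdsWithin_le_nhds, by
      filter_upwards [self_mem_nhdsWithin] with t ht
      simpa using ht⟩
  have P0 : p 0 = ∑ a ∈ S, v a * B a 0 := by simp [p]
  have pc : Continuous p := by fun_prop
  have l1 : Tendsto p (𝓝[≠] 0) (𝓝 (p 0)) := (pc.tendsto 0).mono_left nhdsWithin_le_nhds
  have l2 : Tendsto (fun t => t⁻¹ * (g t - A 0)) (𝓝[≠] 0) (𝓝 (-p 0)) := by
    simpa [g0] using hasDerivAt_iff_tendsto_slope_zero.1 (hg 0)
  have l3 : Tendsto (fun t => t⁻¹ * (p t - d t)) (𝓝[≠] 0)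
      (𝓝 (-∑ a ∈ S, ∑ b ∈ S.erase a, v a * v b * C a b 0)) := by
    have h : ∀ a ∈ S, Tendsto (fun t => t⁻¹ * (v a * (Real.exp (t * m) * B a (t • w)) -
        v a * (Real.exp (t * v a) * B a ((t * v a) • e a)))) (𝓝[≠] 0)
        (𝓝 (-∑ b ∈ S.erase a, v a * v b * C a b 0)) := by
      intro a ha
      have c1 : Continuous fun t : ℝ => (t * v a) • e a := by fun_prop
      have c2 : Continuous fun t : ℝ => v a * Real.exp (t * v a) := by fun_prop
      have h1 := many_steps (hC a) e v (S.erase a) (ode2 a ha) (z := fun t => (t * v a) • e a)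
        (x := 0) (by simpa using (c1.tendsto 0).mono_left nhdsWithin_le_nhds)
      have h2 := ((c2.tendsto 0).mono_left nhdsWithin_le_nhds).mul h1
      have e1 : v a * Real.exp (0 * v a) * -∑ b ∈ S.erase a, v b * C a b 0 =
          -∑ b ∈ S.erase a, v a * v b * C a b 0 := by
        rw [zero_mul, Real.exp_zero, mul_one, mul_neg, mul_sum]
        exact congrArg _ (sum_congr rfl fun a _ => by ring)
      rw [e1] at h2
      refine h2.congr fun t => ?_
      rw [hm, hw, ← add_sum_erase S v ha, ← add_sum_erase S (fun a => v a • e a) ha, mul_add t,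
        Real.exp_add, smul_add, smul_smul]
      ring
    have := tendsto_finsetSum S h
    rw [sum_neg_distrib] at this
    refine this.congr fun t => ?_
    rw [← mul_sum, sum_sub_distrib]
  refine ⟨fun t => (A 0 ^ 2 - g t * g (-t)) / A 0,
    fun t => (p t * g (-t) - g t * p (-t)) / A 0, by simp [g0, sq], fun t => ?_, fun t => ?_, ?_⟩
  · refine div_nonneg (sub_nonneg.2 ?_) A0.le
    have := mid (t • w)
    have e1 : g t * g (-t) = A (t • w) * A (-(t • w)) := by
      simp only [g, neg_smul, neg_mul, Real.exp_neg]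
      field_simp
    rw [e1]
    exact this
  · have := (((hg t).mul (hg' t)).const_sub (A 0 ^ 2)).div_const (A 0)
    refine this.congr_deriv ?_
    ring
  · have h := ((((l1.mul (l2.comp neg)).neg.sub (l2.mul (l1.comp neg))).div_const (A 0)).add
      l3).add (l3.comp neg)
    have e1 : (-(p 0 * -p 0) - -p 0 * p 0) / A 0 +
        -∑ a ∈ S, ∑ b ∈ S.erase a, v a * v b * C a b 0 +
        -∑ a ∈ S, ∑ b ∈ S.erase a, v a * v b * C a b 0 =
        2 * (∑ a ∈ S, v a * B a 0) ^ 2 / A 0 -
          2 * ∑ a ∈ S, ∑ b ∈ S.erase a, v a * v b * C a b 0 := by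
      rw [P0]; ring
    rw [e1] at h
    refine h.congr fun t => ?_
    have e2 : ∑ a ∈ S, t⁻¹ * (v a * (Real.exp (t * v a) * B a ((t * v a) • e a) -
        Real.exp (-(t * v a)) * B a (-((t * v a) • e a)))) = t⁻¹ * (d t - d (-t)) := by
      simp only [d]
      rw [← sum_sub_distrib, mul_sum]
      refine sum_congr rfl fun a _ => ?_
      rw [neg_mul, neg_smul]
      ring
    rw [e2]
    simp only [Function.comp, inv_neg]
    field_simp
    ring

/-- A nonnegative function vanishing at zero: the limit of `k' t / t` is nonnegative. -/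
theorem lim_nonneg {k k' : ℝ → ℝ} {c : ℝ} (k0 : k 0 = 0) (hk : ∀ t, 0 ≤ k t)
    (hd : ∀ t, HasDerivAt k (k' t) t)
    (hl : Tendsto (fun t => t⁻¹ * k' t) (𝓝[≠] 0) (𝓝 c)) : 0 ≤ c := by
  by_contra hc
  have h1 := hl.eventually (gt_mem_nhds (not_le.1 hc))
  have h2 := h1.filter_mono (nhdsGT_le_nhdsNE (0 : ℝ))
  obtain ⟨u, hu, h3⟩ := mem_nhdsGT_iff_exists_Ioo_subset.1 h2
  have hu : 0 < u := hu
  obtain ⟨x, hx, e⟩ := exists_hasDerivAt_eq_slope k k' hu
    (fun t _ => (hd t).continuousAt.continuousWithinAt) (fun t _ => hd t)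
  have h4 : x⁻¹ * k' x < 0 := h3 hx
  rw [e, k0, sub_zero, sub_zero] at h4
  exact absurd h4 (not_lt.2 (mul_nonneg (inv_nonneg.2 hx.1.le) (div_nonneg (hk u) hu.le)))

/-- The two signs together. -/
theorem pair {B : V → ℝ} (hB : Continuous B) (e : V) (v : ℝ) :
    Tendsto (fun t : ℝ => t⁻¹ * (v * (Real.exp (t * v) * B ((t * v) • e) -
        Real.exp (-(t * v)) * B (-((t * v) • e)))) +
      t⁻¹ * (v * (Real.exp (t * v) * B ((t * v) • -e) -
        Real.exp (-(t * v)) * B (-((t * v) • -e))))) (𝓝[≠] 0) (𝓝 (4 * v ^ 2 * B 0)) := by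
  have d : HasDerivAt (fun t : ℝ => Real.exp (t * v) - Real.exp (-(t * v))) (v + v) 0 := by
    have h := (hasDerivAt_mul_const v).exp.sub (hasDerivAt_mul_const (x := (0 : ℝ)) v).neg.exp
    exact h.congr_deriv (by simp)
  have h1 := hasDerivAt_iff_tendsto_slope_zero.1 d
  have c1 : Continuous fun t : ℝ => v * (B ((t * v) • e) + B (-((t * v) • e))) := by fun_prop
  have h2 := h1.mul ((c1.tendsto 0).mono_left nhdsWithin_le_nhds)
  have e1 : (v + v) * (v * (B (((0 : ℝ) * v) • e) + B (-(((0 : ℝ) * v) • e)))) =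
      4 * v ^ 2 * B 0 := by
    simp only [zero_mul, zero_smul, neg_zero]; ring
  rw [e1] at h2
  refine h2.congr fun t => ?_
  simp only [zero_add, zero_mul, neg_zero, sub_self, sub_zero, smul_eq_mul, smul_neg, neg_neg]
  ring

section Faces

open Function

variable [Fintype ι]

/-- Sum over faces and their fixed coordinates, as a sum over faces, free coordinates, signs. -/
theorem reindex (F : (ι → Option Bool) → ι → ℝ) :
    ∑ H : ι → Option Bool, ∑ a with H a ≠ none, F H a =
      ∑ G : ι → Option Bool, ∑ a with G a = none, ∑ b : Bool, F (update G a (some b)) a := by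
  simp only [sum_filter]
  rw [sum_comm, sum_comm (s := (univ : Finset (ι → Option Bool)))]
  refine sum_congr rfl fun a _ => ?_
  rw [← (Equiv.funSplitAt a (Option Bool)).symm.sum_comp,
    ← (Equiv.funSplitAt a (Option Bool)).symm.sum_comp, Fintype.sum_prod_type,
    Fintype.sum_prod_type, sum_comm, sum_comm (s := (univ : Finset (Option Bool)))]
  refine sum_congr rfl fun y _ => ?_
  have u : ∀ x c, update ((Equiv.funSplitAt a (Option Bool)).symm (x, y)) a c =
      (Equiv.funSplitAt a (Option Bool)).symm (c, y) := by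
    intro x c
    funext j
    by_cases h : j = a
    · subst h; simp
    · simp [h]
  simp [Fintype.sum_option, u]

/-- The summed inequality, indexed by the upper face. -/
theorem lc_up (E : (ι → Option Bool) → V → ℝ) (e : ι → V) (d : ι → Bool → V)
    (dt : ∀ a, d a true = e a) (df : ∀ a, d a false = -e a)
    (hc : ∀ G, Continuous (E G)) (h0 : ∀ G, 0 < E G 0)
    (ode : ∀ G a b, G a = none → Ode (E (update G a (some b))) (E G) (d a b))
    (mid : ∀ G x, E G x * E G (-x) ≤ E G 0 ^ 2) (u : (ι → Option Bool) → ι → ℝ) :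
    ∑ H : ι → Option Bool, ∑ a with H a ≠ none, ∑ b ∈ ({a | H a ≠ none} : Finset ι).erase a,
        u (update H a none) a * u (update H b none) b * E (update (update H a none) b none) 0 ≤
      ∑ H : ι → Option Bool,
        (∑ a with H a ≠ none, u (update H a none) a * E (update H a none) 0) ^ 2 / E H 0 +
      2 * ∑ G : ι → Option Bool, ∑ a with G a = none, u G a ^ 2 * E G 0 := by
  have ode1 : ∀ (H : ι → Option Bool) a, H a ≠ none →
      Ode (E H) (E (update H a none)) (d a ((H a).getD true)) := by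
    intro H a ha
    obtain ⟨b, hb⟩ := Option.ne_none_iff_exists'.1 ha
    have := ode (update H a none) a b (update_self _ _ _)
    rwa [update_idem, ← hb, update_eq_self, ← show (H a).getD true = b by simp [hb]] at this
  choose k k' k0 hk hd hl using fun H : ι → Option Bool =>
    face (A := E H) (B := fun a => E (update H a none))
      (C := fun a b => E (update (update H a none) b none)) (fun _ => hc _) (fun _ _ => hc _)
      (fun a => d a ((H a).getD true)) (fun a => u (update H a none) a) {a | H a ≠ none}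
      (fun a ha => ode1 H a (mem_filter.1 ha).2)
      (fun a _ b hb => by
        have n := (mem_erase.1 hb).1
        have := ode1 (update H a none) b (by
          rw [update_of_ne n]; exact (mem_filter.1 (mem_erase.1 hb).2).2)
        rwa [update_of_ne n] at this)
      (h0 H) (mid H)
  have h1 := tendsto_finsetSum univ fun H _ => hl H
  have h2 := tendsto_finsetSum univ fun (G : ι → Option Bool) _ =>
    tendsto_finsetSum ({a | G a = none} : Finset ι) fun a _ => pair (hc G) (e a) (u G a)
  have h3 := lim_nonneg (k := fun t => ∑ H, k H t) (k' := fun t => ∑ H, k' H t)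
    (sum_eq_zero fun H _ => k0 H) (fun t => sum_nonneg fun H _ => hk H t)
    (fun t => HasDerivAt.fun_sum fun H _ => hd H t) ((h1.add h2).congr fun t => by
      rw [sum_sub_distrib, ← mul_sum, reindex, sub_add, sub_eq_self, sub_eq_zero]
      refine sum_congr rfl fun G _ => sum_congr rfl fun a ha => ?_
      have : update G a none = G := by rw [← (mem_filter.1 ha).2, update_eq_self]
      simp only [Fintype.sum_bool, update_idem, this, update_self, Option.getD_some, dt, df])
  rw [sum_sub_distrib, ← mul_sum] at h3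
  simp only [mul_div_assoc, mul_assoc (4 : ℝ), ← mul_sum] at h3
  linarith

/-- The summed inequality, indexed by the lower face. -/
theorem lc_sum (E : (ι → Option Bool) → V → ℝ) (e : ι → V) (d : ι → Bool → V)
    (dt : ∀ a, d a true = e a) (df : ∀ a, d a false = -e a)
    (hc : ∀ G, Continuous (E G)) (h0 : ∀ G, 0 < E G 0)
    (ode : ∀ G a b, G a = none → Ode (E (update G a (some b))) (E G) (d a b))
    (mid : ∀ G x, E G x * E G (-x) ≤ E G 0 ^ 2) (u : (ι → Option Bool) → ι → ℝ) :
    ∑ F : ι → Option Bool, E F 0 * ∑ k with F k = none,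
        ∑ l ∈ ({a | F a = none} : Finset ι).erase k,
        (∑ b : Bool, u (update F k (some b)) l) * (∑ b : Bool, u (update F l (some b)) k) ≤
      ∑ H : ι → Option Bool,
        (∑ a with H a ≠ none, u (update H a none) a * E (update H a none) 0) ^ 2 / E H 0 +
      2 * ∑ G : ι → Option Bool, ∑ a with G a = none, u G a ^ 2 * E G 0 := by
  refine le_trans (le_of_eq ?_) (lc_up E e d dt df hc h0 ode mid u)
  rw [reindex]
  have s1 : ∀ G : ι → Option Bool, ∑ a with G a = none, ∑ c : Bool,
      ∑ b ∈ ({b | update G a (some c) b ≠ none} : Finset ι).erase a,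
        u (update (update G a (some c)) a none) a * u (update (update G a (some c)) b none) b *
          E (update (update (update G a (some c)) a none) b none) 0 =
      ∑ b with G b ≠ none, ∑ a ∈ ({a | update G b none a = none} : Finset ι).erase b,
        u G a * (∑ c : Bool, u (update (update G b none) a (some c)) b) * E (update G b none) 0 := by
    intro G
    have : ∀ a ∈ ({a | G a = none} : Finset ι), ∑ c : Bool,
        ∑ b ∈ ({b | update G a (some c) b ≠ none} : Finset ι).erase a,
        u (update (update G a (some c)) a none) a * u (update (update G a (some c)) b none) b *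
          E (update (update (update G a (some c)) a none) b none) 0 =
        ∑ b with G b ≠ none, u G a * (∑ c : Bool, u (update (update G b none) a (some c)) b) *
          E (update G b none) 0 := by
      intro a ha
      have ha := (mem_filter.1 ha).2
      have g : update G a none = G := by rw [← ha, update_eq_self]
      have f : ∀ c, ({b | update G a (some c) b ≠ none} : Finset ι).erase a =
          ({b | G b ≠ none} : Finset ι) := by
        intro c
        ext b
        by_cases h : b = a
        · simp [h, ha]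
        · simp [h]
      simp only [f, update_idem, g]
      rw [sum_comm]
      refine sum_congr rfl fun b hb => ?_
      have n : a ≠ b := fun h => (mem_filter.1 hb).2 (h ▸ ha)
      simp only [update_comm n, mul_sum, sum_mul]
    rw [sum_congr rfl this, sum_comm]
    refine sum_congr rfl fun b hb => sum_congr ?_ fun _ _ => rfl
    ext a
    by_cases h : a = b
    · simpa [h] using (mem_filter.1 hb).2
    · simp [h]
  rw [sum_congr rfl fun G _ => s1 G, reindex]
  refine sum_congr rfl fun F _ => ?_
  rw [mul_sum]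
  refine sum_congr rfl fun k hk => ?_
  have g : update F k none = F := by rw [← (mem_filter.1 hk).2, update_eq_self]
  simp only [update_idem, g]
  rw [sum_comm, mul_sum]
  refine sum_congr rfl fun l _ => ?_
  rw [← sum_mul, ← sum_mul]
  ring

end Faces

open Pool.Agent.Lib.MP_79af62_gt.Glue

theorem ax_smul {n : ℕ} (a : Fin n) (e : Bool) (s : ℝ) : ax a e s = s • ax a e 1 := by
  rw [ax, ax, ← Pi.single_smul, smul_eq_mul, mul_one, mul_comm]

theorem ode_of_ftc {n : ℕ} {F : Face n → (Fin n → ℝ) → ℝ} (hF : Ftc F) (G : Face n) (a : Fin n)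
    (b : Bool) (h : G a = none) : Ode (F (put G a b)) (F G) (ax a b 1) := by
  intro z τ
  have c : Continuous fun s : ℝ => Real.exp s * F G (z + s • ax a b 1) := by
    have := hF.1 G
    fun_prop
  have e : (fun τ : ℝ => Real.exp τ * F (put G a b) (z + τ • ax a b 1)) = fun τ =>
      F (put G a b) z - ∫ s in (0 : ℝ)..τ, Real.exp s * F G (z + s • ax a b 1) := by
    funext τ
    have := hF.2 G a (mem_free.2 h) b z τ
    simpa only [← ax_smul] using this
  rw [e]
  exact (c.integral_hasStrictDerivAt 0 τ).hasDerivAt.const_sub _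

/-- Blocks PT and SUM at once. -/
theorem lc_of_ftc {n : ℕ} {F : Face n → (Fin n → ℝ) → ℝ} (h0 : ∀ G, 0 < F G 0) (hF : Ftc F)
    (hM : Mid F) : LC fun G => F G 0 := by
  intro u
  have h := lc_sum F (fun a => ax a true 1) (fun a b => ax a b 1) (fun _ => rfl)
    (fun a => by rw [ax, ax, ← Pi.single_neg]; simp [sg]) hF.1 h0 (ode_of_ftc hF)
    (fun G x => by simpa using hM G x (-x)) u
  refine h.trans (le_of_eq ?_)
  rw [add_comm]
  refine congrArg₂ _ (congrArg _ (sum_congr rfl fun G _ => ?_)) (sum_congr rfl fun H _ => ?_)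
  · rw [mul_sum]
    exact sum_congr rfl fun a _ => mul_comm _ _
  · refine congrArg (fun w => w ^ 2 / F H 0) (sum_congr rfl fun a _ => mul_comm _ _)

end Pool.Agent.BG.LCx
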