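import Pool.Agent.Shared.BrunnMinkowski

/-! The Prekopa-Leindler inequality at the midpoint, for marginals. -/

namespace Pool.Agent.Lib.MP_79af62_gt.PLm

open MeasureTheory Set Function
open scoped ENNReal

theorem pl_trunc {f g m : ℝ → ℝ≥0∞} (hf : Measurable f) (hg : Measurable g) (hm : Measurable m)
    (H : ∀ x y, f x * g y ≤ m ((x + y) / 2) ^ 2) (N : ℕ) (fN : ∀ x, f x ≤ N) (gN : ∀ x, g x ≤ N)
    (mN : ∀ x, m x ≤ N) (sf : ∀ x, x ∉ Icc (-N : ℝ) N → f x = 0)
    (sg : ∀ x, x ∉ Icc (-N : ℝ) N → g x = 0) (hI : ∫⁻ x, m x ≠ ∞) :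
    (∫⁻ x, f x) * (∫⁻ x, g x) ≤ (∫⁻ x, m x) ^ 2 := by
  have top : ∀ {k : ℝ → ℝ≥0∞}, (∀ x, k x ≤ N) → ∀ x, k x ≠ ∞ := fun h x =>
    ne_top_of_le_ne_top (ENNReal.natCast_ne_top N) (h x)
  have fin : ∀ {k : ℝ → ℝ≥0∞}, (∀ x, k x ≤ N) → (∀ x, x ∉ Icc (-N : ℝ) N → k x = 0) →
      ∫⁻ x, k x ≠ ∞ := fun {k} h s => by
    refine ne_top_of_le_ne_top (b := ∫⁻ x, (Icc (-N : ℝ) N).indicator (fun _ => (N : ℝ≥0∞)) x) ?_
      (lintegral_mono fun x => ?_)
    · rw [lintegral_indicator_const measurableSet_Icc]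
      exact ENNReal.mul_ne_top (ENNReal.natCast_ne_top N) (by simp)
    · by_cases hx : x ∈ Icc (-N : ℝ) N
      · rw [indicator_of_mem hx]
        exact h x
      · rw [s x hx]
        exact zero_le
  have bdd : ∀ {k : ℝ → ℝ≥0∞}, (∀ x, k x ≤ N) → BddAbove (range fun x => (k x).toReal) :=
    fun h => ⟨N, by
      rintro _ ⟨x, rfl⟩
      exact ENNReal.toReal_le_of_le_ofReal (Nat.cast_nonneg N) (by simpa using h x)⟩
  have sup : ∀ {k : ℝ → ℝ≥0∞}, (∀ x, x ∉ Icc (-N : ℝ) N → k x = 0) →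
      Bornology.IsBounded {x | (k x).toReal ≠ 0} := fun s =>
    (Metric.isBounded_Icc (-N : ℝ) N).subset fun x hx => by_contra fun h => hx (by simp [s x h])
  have key := Pool.Agent.Shared.BrunnMinkowski.pl_one (l := 1 / 2) hf.ennreal_toReal
    hg.ennreal_toReal hm.ennreal_toReal (fun _ => ENNReal.toReal_nonneg)
    (fun _ => ENNReal.toReal_nonneg) (fun _ => ENNReal.toReal_nonneg) (bdd fN) (bdd gN)
    (integrable_toReal_of_lintegral_ne_top hf.aemeasurable (fin fN sf))
    (integrable_toReal_of_lintegral_ne_top hg.aemeasurable (fin gN sg))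
    (integrable_toReal_of_lintegral_ne_top hm.aemeasurable hI) (sup sf) (sup sg)
    (by norm_num) (by norm_num) fun x y => by
      have h1 := ENNReal.toReal_mono (ENNReal.pow_ne_top (top mN _)) (H x y)
      rw [ENNReal.toReal_mul, ENNReal.toReal_pow] at h1
      rw [show (1 - 1 / 2 : ℝ) = 1 / 2 by norm_num, ← Real.mul_rpow ENNReal.toReal_nonneg
        ENNReal.toReal_nonneg, ← Real.sqrt_eq_rpow, show 1 / 2 * x + 1 / 2 * y = (x + y) / 2 by ring]
      exact Real.sqrt_le_iff.mpr ⟨ENNReal.toReal_nonneg, h1⟩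
  rw [integral_toReal hf.aemeasurable (.of_forall fun x => (top fN x).lt_top),
    integral_toReal hg.aemeasurable (.of_forall fun x => (top gN x).lt_top),
    integral_toReal hm.aemeasurable (.of_forall fun x => (top mN x).lt_top),
    show (1 - 1 / 2 : ℝ) = 1 / 2 by norm_num, ← Real.mul_rpow ENNReal.toReal_nonneg
      ENNReal.toReal_nonneg, ← Real.sqrt_eq_rpow] at key
  rw [← ENNReal.toReal_le_toReal (ENNReal.mul_ne_top (fin fN sf) (fin gN sg))
    (ENNReal.pow_ne_top hI), ENNReal.toReal_mul, ENNReal.toReal_pow]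
  exact (Real.sqrt_le_iff.mp key).2

/-- Truncation at height and width `N`. -/
noncomputable def cut (f : ℝ → ℝ≥0∞) (N : ℕ) : ℝ → ℝ≥0∞ :=
  (Icc (-N : ℝ) N).indicator fun x => min (f x) N

theorem cut_meas {f : ℝ → ℝ≥0∞} (hf : Measurable f) (N : ℕ) : Measurable (cut f N) :=
  (hf.min measurable_const).indicator measurableSet_Icc

theorem cut_le (f : ℝ → ℝ≥0∞) (N : ℕ) (x : ℝ) : cut f N x ≤ min (f x) N := indicator_le_self _ _ x

theorem cut_mono (f : ℝ → ℝ≥0∞) : Monotone (cut f) := fun a b hab x => by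
  have h : (a : ℝ) ≤ b := Nat.cast_le.mpr hab
  by_cases hx : x ∈ Icc (-a : ℝ) a
  · rw [cut, cut, indicator_of_mem hx, indicator_of_mem (Icc_subset_Icc (by linarith) h hx)]
    exact min_le_min le_rfl (Nat.cast_le.mpr hab)
  · rw [cut, indicator_of_notMem hx]
    exact zero_le

theorem lintegral_cut {f : ℝ → ℝ≥0∞} (hf : Measurable f) : ∫⁻ x, f x = ⨆ N, ∫⁻ x, cut f N x := by
  rw [← lintegral_iSup (cut_meas hf) (cut_mono f)]
  refine lintegral_congr fun x => le_antisymm ?_
    (iSup_le fun N => (cut_le f N x).trans (min_le_left _ _))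
  refine le_of_forall_lt_imp_le_of_dense fun c hc => ?_
  obtain ⟨a, ha⟩ := exists_nat_ge |x|
  obtain ⟨b, hb⟩ := ENNReal.exists_nat_gt (hc.trans_le le_top).ne
  refine le_iSup_of_le (a + b) ?_
  have h1 : |x| ≤ ((a + b : ℕ) : ℝ) := ha.trans (Nat.cast_le.mpr (Nat.le_add_right a b))
  rw [cut, indicator_of_mem (show x ∈ Icc _ _ from abs_le.mp h1)]
  exact le_min hc.le (hb.le.trans (Nat.cast_le.mpr (Nat.le_add_left b a)))

/-- Dimension one. -/
theorem pl1 {f g m : ℝ → ℝ≥0∞} (hf : Measurable f) (hg : Measurable g) (hm : Measurable m)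
    (H : ∀ x y, f x * g y ≤ m ((x + y) / 2) ^ 2) :
    (∫⁻ x, f x) * (∫⁻ x, g x) ≤ (∫⁻ x, m x) ^ 2 := by
  by_cases hI : ∫⁻ x, m x = ∞
  · rw [hI]
    simp
  rw [lintegral_cut hf, lintegral_cut hg, ENNReal.iSup_mul]
  refine iSup_le fun a => ?_
  rw [ENNReal.mul_iSup]
  refine iSup_le fun b => ?_
  have hle : ∫⁻ x, min (m x) ((a + b : ℕ) : ℝ≥0∞) ≤ ∫⁻ x, m x :=
    lintegral_mono fun x => min_le_left _ _
  refine (mul_le_mul' (lintegral_mono (cut_mono f (Nat.le_add_right a b)))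
    (lintegral_mono (cut_mono g (Nat.le_add_left b a)))).trans
    ((pl_trunc (cut_meas hf _) (cut_meas hg _) (hm.min measurable_const) (fun x y => ?_) (a + b)
      (fun x => (cut_le _ _ x).trans (min_le_right _ _))
      (fun x => (cut_le _ _ x).trans (min_le_right _ _)) (fun x => min_le_right _ _)
      (fun x hx => indicator_of_notMem hx _) (fun x hx => indicator_of_notMem hx _)
      (ne_top_of_le_ne_top hI hle)).trans (pow_le_pow_left' hle 2))
  refine (mul_le_mul' (cut_le _ _ x) (cut_le _ _ y)).trans ?_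
  rcases le_total (m ((x + y) / 2)) ((a + b : ℕ) : ℝ≥0∞) with h | h
  · rw [min_eq_left h]
    exact (mul_le_mul' (min_le_left _ _) (min_le_left _ _)).trans (H x y)
  · rw [min_eq_right h, sq]
    exact mul_le_mul' (min_le_right _ _) (min_le_right _ _)

/-- Marginals. -/
theorem plm {ι : Type} [DecidableEq ι] {f g m : (ι → ℝ) → ℝ≥0∞} (hf : Measurable f)
    (hg : Measurable g) (hm : Measurable m)
    (H : ∀ x y, f x * g y ≤ m (fun i => (x i + y i) / 2) ^ 2) (s : Finset ι) (x y : ι → ℝ) :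
    lmarginal (fun _ => volume) s f x * lmarginal (fun _ => volume) s g y ≤
      lmarginal (fun _ => volume) s m (fun i => (x i + y i) / 2) ^ 2 := by
  induction s using Finset.induction_on generalizing x y with
  | empty => simpa using H x y
  | insert i s hi ih =>
    rw [lmarginal_insert _ hf hi, lmarginal_insert _ hg hi, lmarginal_insert _ hm hi]
    refine pl1 ((hf.lmarginal _).comp (measurable_update _))
      ((hg.lmarginal _).comp (measurable_update _)) ((hm.lmarginal _).comp (measurable_update _))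
      fun a b => (ih _ _).trans_eq ?_
    congr 2
    funext j
    by_cases hj : j = i
    · simp [hj]
    · simp [update_of_ne hj]

end Pool.Agent.Lib.MP_79af62_gt.PLm
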