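import Mathlib
import Pool.Agent.Lib.MP_79af62_gt.BG.St
import Pool.Agent.Lib.MP_79af62_gt.BG.PLm

/-! Block MID: midpoint log-concavity of the shifted orthant integrals. -/

namespace Pool.Agent.BG

open Finset Set MeasureTheory Pool.Agent.Lib.MP_79af62_gt.Glue

/-- The midpoint inequality on a half line, for real functions. -/
theorem mid_half {f g m : ℝ → ℝ} (hf : Continuous f) (hg : Continuous g) (hm : Continuous m)
    (f0 : ∀ s, 0 ≤ f s) (g0 : ∀ s, 0 ≤ g s) (m0 : ∀ s, 0 ≤ m s)
    (fi : IntegrableOn f (Ioi 0)) (gi : IntegrableOn g (Ioi 0)) (mi : IntegrableOn m (Ioi 0))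
    (H : ∀ s t, f s * g t ≤ m ((s + t) / 2) ^ 2) :
    (∫ s in Ioi (0 : ℝ), f s) * (∫ s in Ioi (0 : ℝ), g s) ≤ (∫ s in Ioi (0 : ℝ), m s) ^ 2 := by
  have key := Pool.Agent.Lib.MP_79af62_gt.PLm.pl1
    (f := (Ioi (0 : ℝ)).indicator fun s => ENNReal.ofReal (f s))
    (g := (Ioi (0 : ℝ)).indicator fun s => ENNReal.ofReal (g s))
    (m := (Ioi (0 : ℝ)).indicator fun s => ENNReal.ofReal (m s))
    (hf.measurable.ennreal_ofReal.indicator measurableSet_Ioi)
    (hg.measurable.ennreal_ofReal.indicator measurableSet_Ioi)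
    (hm.measurable.ennreal_ofReal.indicator measurableSet_Ioi) (fun s t => by
      by_cases hs : s ∈ Ioi (0 : ℝ)
      · by_cases ht : t ∈ Ioi (0 : ℝ)
        · have hst : (s + t) / 2 ∈ Ioi (0 : ℝ) := by
            have h1 : 0 < s := hs
            have h2 : 0 < t := ht
            show 0 < (s + t) / 2
            positivity
          rw [indicator_of_mem hs, indicator_of_mem ht, indicator_of_mem hst,
            ← ENNReal.ofReal_mul (f0 s), ← ENNReal.ofReal_pow (m0 _)]
          exact ENNReal.ofReal_le_ofReal (H s t)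
        · rw [indicator_of_notMem ht, mul_zero]
          exact zero_le
      · rw [indicator_of_notMem hs, zero_mul]
        exact zero_le)
  rw [lintegral_indicator measurableSet_Ioi, lintegral_indicator measurableSet_Ioi,
    lintegral_indicator measurableSet_Ioi,
    ← ofReal_integral_eq_lintegral_ofReal fi (Filter.Eventually.of_forall f0),
    ← ofReal_integral_eq_lintegral_ofReal gi (Filter.Eventually.of_forall g0),
    ← ofReal_integral_eq_lintegral_ofReal mi (Filter.Eventually.of_forall m0),
    ← ENNReal.ofReal_mul (integral_nonneg f0), ← ENNReal.ofReal_pow (integral_nonneg m0)] at key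
  exact (ENNReal.ofReal_le_ofReal_iff (sq_nonneg _)).1 key

theorem mid_ax {n : ℕ} (x y : Fin n → ℝ) (a : Fin n) (e : Bool) (s t : ℝ) :
    (1 / 2 : ℝ) • ((x + ax a e s) + (y + ax a e t)) =
      (1 / 2 : ℝ) • (x + y) + ax a e ((s + t) / 2) := by
  funext i
  rcases eq_or_ne i a with rfl | h
  · simp [ax]; ring
  · simp [ax, h]; ring

theorem mid_cont {n : ℕ} (x : Fin n → ℝ) (a : Fin n) (e : Bool) :
    Continuous fun s : ℝ => x + ax a e s := by
  refine continuous_const.add (continuous_pi fun i => ?_)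
  rcases eq_or_ne i a with rfl | h
  · simp only [ax, Pi.single_eq_same]; fun_prop
  · simp only [ax, Pi.single_eq_of_ne h]; fun_prop

theorem mid : MID := by
  intro n g η L F hg hF _ hc G
  induction G using face_ind with
  | h0 =>
    intro x y
    rw [hF.base, hF.base, hF.base, ← Real.exp_add, sq, ← Real.exp_add, Real.exp_le_exp,
      hg.hom _ _ (by norm_num)]
    linarith [hg.sub x y]
  | h1 G a ha e ih =>
    intro x y
    have hk : ∀ z : Fin n → ℝ, Continuous fun s : ℝ => Real.exp s * F G (z + ax a e s) :=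
      fun z => Real.continuous_exp.mul ((hc.1 G).comp (mid_cont z a e))
    have h0 : ∀ (z : Fin n → ℝ) (s : ℝ), 0 ≤ Real.exp s * F G (z + ax a e s) :=
      fun z s => (mul_pos (Real.exp_pos s) (hF.pos G _)).le
    rw [hF.step G a ha, hF.step G a ha, hF.step G a ha]
    refine mid_half (hk x) (hk y) (hk _) (h0 x) (h0 y) (h0 _) (hF.int G a ha e x)
      (hF.int G a ha e y) (hF.int G a ha e _) fun s t => ?_
    have h1 := ih (x + ax a e s) (y + ax a e t)
    rw [mid_ax] at h1
    have h2 : Real.exp ((s + t) / 2) ^ 2 = Real.exp s * Real.exp t := by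
      rw [sq, ← Real.exp_add, ← Real.exp_add]; ring_nf
    rw [mul_pow, h2, mul_mul_mul_comm]
    exact mul_le_mul_of_nonneg_left h1 (by positivity)

end Pool.Agent.BG
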