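import Pool.Agent.Shared.BrunnMinkowski

/-! The midpoint Prekopa-Leindler inequality in all dimensions. -/

namespace Pool.Agent.Lib.MP_79af62_gt.BG

open MeasureTheory Set
open scoped ENNReal

/-- Truncation. -/
noncomputable def trunc (f : ℝ → ℝ≥0∞) (n : ℕ) : ℝ → ℝ≥0∞ :=
  (Icc (-(n : ℝ)) n).indicator fun x => min (f x) n

theorem trunc_le (f : ℝ → ℝ≥0∞) (n : ℕ) (x : ℝ) : trunc f n x ≤ min (f x) n :=
  indicator_le_self _ _ x

theorem trunc_meas {f : ℝ → ℝ≥0∞} (hf : Measurable f) (n : ℕ) : Measurable (trunc f n) :=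
  (hf.min measurable_const).indicator measurableSet_Icc

theorem trunc_mono (f : ℝ → ℝ≥0∞) : Monotone (trunc f) := fun n m h x => by
  have h' : (n : ℝ) ≤ m := Nat.cast_le.mpr h
  refine le_trans (indicator_le_indicator (g := fun x => min (f x) m)
    (min_le_min_left _ (Nat.cast_le.mpr h))) ?_
  exact indicator_le_indicator_of_subset (Icc_subset_Icc (by linarith) h') (fun _ => zero_le) x

theorem iSup_trunc (f : ℝ → ℝ≥0∞) (x : ℝ) : ⨆ n, trunc f n x = f x := by
  refine le_antisymm (iSup_le fun n => (trunc_le f n x).trans (min_le_left _ _)) ?_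
  obtain ⟨m, hm⟩ := exists_nat_ge |x|
  have key : ∀ n : ℕ, min (f x) n ≤ ⨆ n, trunc f n x := fun n => by
    refine le_trans ?_ (le_iSup (fun n => trunc f n x) (n + m))
    have : x ∈ Icc (-((n + m : ℕ) : ℝ)) (n + m : ℕ) := by
      have h0 : (0 : ℝ) ≤ n := n.cast_nonneg
      have := abs_le.mp hm
      push_cast
      constructor <;> linarith [this.1, this.2]
    rw [trunc, indicator_of_mem this]
    exact min_le_min_left _ (Nat.cast_le.mpr (Nat.le_add_right n m))
  by_cases h : f x = ⊤
  · rw [h, ← ENNReal.iSup_natCast]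
    exact iSup_le fun n => by simpa [h] using key n
  · obtain ⟨n, hn⟩ := ENNReal.exists_nat_gt h
    simpa [min_eq_left hn.le] using key n

theorem trunc_ne_top (f : ℝ → ℝ≥0∞) (n : ℕ) (x : ℝ) : trunc f n x ≠ ⊤ :=
  ne_top_of_le_ne_top (ENNReal.natCast_ne_top n) ((trunc_le f n x).trans (min_le_right _ _))

theorem lintegral_trunc_ne (f : ℝ → ℝ≥0∞) (n : ℕ) : ∫⁻ x, trunc f n x ≠ ⊤ := by
  refine ne_top_of_le_ne_top ?_ (lintegral_mono (g := (Icc (-(n : ℝ)) n).indicator fun _ => n)
    fun x => indicator_le_indicator (min_le_right _ _))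
  rw [lintegral_indicator measurableSet_Icc, setLIntegral_const]
  exact ENNReal.mul_ne_top (ENNReal.natCast_ne_top n) measure_Icc_lt_top.ne

/-- Dimension one. -/
theorem pl_one_mid {f g h : ℝ → ℝ≥0∞} (hf : Measurable f) (hg : Measurable g) (hh : Measurable h)
    (H : ∀ x y, f x * g y ≤ h ((1 / 2) * (x + y)) ^ 2) :
    (∫⁻ x, f x) * ∫⁻ x, g x ≤ (∫⁻ x, h x) ^ 2 := by
  by_cases hi : ∫⁻ x, h x = ⊤
  · rw [hi]
    simp
  have key : ∀ n, (∫⁻ x, trunc f n x) * ∫⁻ x, trunc g n x ≤ (∫⁻ x, h x) ^ 2 := by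
    intro n
    have hm : Measurable fun x => min (h x) n := hh.min measurable_const
    have hne : ∀ x, min (h x) n ≠ ⊤ := fun x =>
      ne_top_of_le_ne_top (ENNReal.natCast_ne_top n) (min_le_right _ _)
    have hle : ∫⁻ x, min (h x) n ≤ ∫⁻ x, h x := lintegral_mono fun x => min_le_left _ _
    have bd : ∀ k : ℝ → ℝ≥0∞, BddAbove (range fun x => (trunc k n x).toReal) := fun k =>
      ⟨n, forall_mem_range.2 fun x => ENNReal.toReal_le_of_le_ofReal n.cast_nonneg
        (by rw [ENNReal.ofReal_natCast]; exact (trunc_le k n x).trans (min_le_right _ _))⟩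
    have sp : ∀ k : ℝ → ℝ≥0∞, Bornology.IsBounded {x | (trunc k n x).toReal ≠ 0} := fun k =>
      (Metric.isBounded_Icc (-(n : ℝ)) n).subset fun x hx => by_contra fun e =>
        hx (by rw [trunc, indicator_of_notMem e]; rfl)
    have := Pool.Agent.Shared.BrunnMinkowski.pl_one (trunc_meas hf n).ennreal_toReal
      (trunc_meas hg n).ennreal_toReal hm.ennreal_toReal (fun _ => ENNReal.toReal_nonneg)
      (fun _ => ENNReal.toReal_nonneg) (fun _ => ENNReal.toReal_nonneg) (bd f) (bd g)
      (integrable_toReal_of_lintegral_ne_top (trunc_meas hf n).aemeasurable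
        (lintegral_trunc_ne f n))
      (integrable_toReal_of_lintegral_ne_top (trunc_meas hg n).aemeasurable
        (lintegral_trunc_ne g n))
      (integrable_toReal_of_lintegral_ne_top hm.aemeasurable (ne_top_of_le_ne_top hi hle))
      (sp f) (sp g) (l := 1 / 2) (by norm_num) (by norm_num) fun x y => by
        rw [show (1 : ℝ) - 1 / 2 = 1 / 2 by norm_num, ← mul_add,
          ← Real.mul_rpow ENNReal.toReal_nonneg ENNReal.toReal_nonneg, ← Real.sqrt_eq_rpow,
          Real.sqrt_le_left ENNReal.toReal_nonneg, ← ENNReal.toReal_mul, ← ENNReal.toReal_pow]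
        refine ENNReal.toReal_mono (ENNReal.pow_ne_top (hne _)) ?_
        rcases min_cases (h (1 / 2 * (x + y))) n with e | e <;> rw [e.1]
        · exact (mul_le_mul' ((trunc_le f n x).trans (min_le_left _ _))
            ((trunc_le g n y).trans (min_le_left _ _))).trans (H x y)
        · rw [sq]
          exact mul_le_mul' ((trunc_le f n x).trans (min_le_right _ _))
            ((trunc_le g n y).trans (min_le_right _ _))
    rw [show (1 : ℝ) - 1 / 2 = 1 / 2 by norm_num, ← Real.mul_rpow
      (integral_nonneg fun _ => ENNReal.toReal_nonneg)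
      (integral_nonneg fun _ => ENNReal.toReal_nonneg), ← Real.sqrt_eq_rpow,
      Real.sqrt_le_left (integral_nonneg fun _ => ENNReal.toReal_nonneg),
      integral_toReal (trunc_meas hf n).aemeasurable
        (Filter.Eventually.of_forall fun x => (trunc_ne_top f n x).lt_top),
      integral_toReal (trunc_meas hg n).aemeasurable
        (Filter.Eventually.of_forall fun x => (trunc_ne_top g n x).lt_top),
      integral_toReal hm.aemeasurable (Filter.Eventually.of_forall fun x => (hne x).lt_top),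
      ← ENNReal.toReal_mul, ← ENNReal.toReal_pow] at this
    exact ((ENNReal.toReal_le_toReal
      (ENNReal.mul_ne_top (lintegral_trunc_ne f n) (lintegral_trunc_ne g n))
      (ENNReal.pow_ne_top (ne_top_of_le_ne_top hi hle))).mp this).trans (pow_le_pow_left' hle 2)
  have e : ∀ k : ℝ → ℝ≥0∞, Measurable k → ∫⁻ x, k x = ⨆ n, ∫⁻ x, trunc k n x := fun k hk => by
    rw [← lintegral_iSup (trunc_meas hk) (trunc_mono k)]
    simp only [iSup_trunc]
  rw [e f hf, e g hg, ENNReal.iSup_mul]
  refine iSup_le fun n => ?_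
  rw [ENNReal.mul_iSup]
  exact iSup_le fun m => (mul_le_mul' (lintegral_mono (trunc_mono f (le_max_left n m)))
    (lintegral_mono (trunc_mono g (le_max_right n m)))).trans (key _)

variable {ι : Type*} [DecidableEq ι]

/-- Marginals. -/
theorem pl_lmarginal {f g h : (ι → ℝ) → ℝ≥0∞} (hf : Measurable f) (hg : Measurable g)
    (hh : Measurable h) (H : ∀ x y, f x * g y ≤ h ((1 / 2 : ℝ) • (x + y)) ^ 2) (s : Finset ι) :
    ∀ x y, (∫⋯∫⁻_s, f ∂fun _ => volume) x * (∫⋯∫⁻_s, g ∂fun _ => volume) y ≤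
      (∫⋯∫⁻_s, h ∂fun _ => volume) ((1 / 2 : ℝ) • (x + y)) ^ 2 := by
  induction s using Finset.induction_on with
  | empty => simpa using H
  | insert i s hi ih =>
    intro x y
    rw [lmarginal_insert _ hf hi, lmarginal_insert _ hg hi, lmarginal_insert _ hh hi]
    refine pl_one_mid ((hf.lmarginal _).comp (measurable_update x))
      ((hg.lmarginal _).comp (measurable_update y))
      ((hh.lmarginal _).comp (measurable_update _)) fun a b => ?_
    have e : Function.update ((1 / 2 : ℝ) • (x + y)) i (1 / 2 * (a + b)) =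
        (1 / 2 : ℝ) • (Function.update x i a + Function.update y i b) := by
      funext j
      by_cases hj : j = i
      · subst hj
        simp
      · simp [Function.update_of_ne hj, mul_add]
    rw [e]
    exact ih _ _

/-- All dimensions. -/
theorem pl_pi [Fintype ι] {f g h : (ι → ℝ) → ℝ≥0∞} (hf : Measurable f) (hg : Measurable g)
    (hh : Measurable h) (H : ∀ x y, f x * g y ≤ h ((1 / 2 : ℝ) • (x + y)) ^ 2) :
    (∫⁻ x, f x) * ∫⁻ x, g x ≤ (∫⁻ x, h x) ^ 2 := by
  have := pl_lmarginal hf hg hh H Finset.univ 0 0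
  simpa only [lmarginal_univ, ← volume_pi] using this

/-- Real form. -/
theorem pl_real [Fintype ι] {f g h : (ι → ℝ) → ℝ} (hf : Measurable f) (hg : Measurable g)
    (hh : Measurable h) (f0 : ∀ x, 0 ≤ f x) (g0 : ∀ x, 0 ≤ g x) (h0 : ∀ x, 0 ≤ h x)
    (hi : Integrable h) (H : ∀ x y, f x * g y ≤ h ((1 / 2 : ℝ) • (x + y)) ^ 2) :
    (∫ x, f x) * ∫ x, g x ≤ (∫ x, h x) ^ 2 := by
  have := pl_pi hf.ennreal_ofReal hg.ennreal_ofReal hh.ennreal_ofReal fun x y => by
    rw [← ENNReal.ofReal_mul (f0 x), ← ENNReal.ofReal_pow (h0 _)]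
    exact ENNReal.ofReal_le_ofReal (H x y)
  rw [integral_eq_lintegral_of_nonneg_ae (Filter.Eventually.of_forall f0) hf.aestronglyMeasurable,
    integral_eq_lintegral_of_nonneg_ae (Filter.Eventually.of_forall g0) hg.aestronglyMeasurable,
    integral_eq_lintegral_of_nonneg_ae (Filter.Eventually.of_forall h0) hh.aestronglyMeasurable,
    ← ENNReal.toReal_mul, ← ENNReal.toReal_pow]
  exact ENNReal.toReal_mono (ENNReal.pow_ne_top hi.lintegral_lt_top.ne) this

end Pool.Agent.Lib.MP_79af62_gt.BG
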