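import Mathlib
import Pool.Agent.Lib.MP_79af62_gt.BG.LC

/-! Block PT: the face by face form of second-order log-concavity. -/

open Filter Topology Finset

namespace Pool.Agent.BG

open LCx Pool.Agent.Lib.MP_79af62_gt.Glue

theorem quad_bound {k k' : ℝ → ℝ} {c δ : ℝ} (hδ : 0 < δ) (k0 : k 0 = 0)
    (hd : ∀ t, HasDerivAt k (k' t) t)
    (hl : Tendsto (fun t => t⁻¹ * k' t) (𝓝[≠] 0) (𝓝 c)) :
    ∀ᶠ t in 𝓝[>] (0 : ℝ), k t / t ^ 2 ≤ c / 2 + δ := by
  have h1 := hl.eventually (gt_mem_nhds (show c < c + 2 * δ by linarith))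
  obtain ⟨u, hu, h3⟩ := mem_nhdsGT_iff_exists_Ioo_subset.1
    (h1.filter_mono (nhdsGT_le_nhdsNE (0 : ℝ)))
  filter_upwards [Ioo_mem_nhdsGT hu] with t ht
  have d : ∀ s, HasDerivAt (fun s => k s - (c / 2 + δ) * s ^ 2) (k' s - (c + 2 * δ) * s) s :=
    fun s => ((hd s).sub ((hasDerivAt_pow 2 s).const_mul (c / 2 + δ))).congr_deriv (by
      simp only [Nat.cast_ofNat, Nat.add_one_sub_one, pow_one]; ring)
  obtain ⟨x, hx, e⟩ := exists_hasDerivAt_eq_slope _ _ ht.1
    (fun s _ => (d s).continuousAt.continuousWithinAt) (fun s _ => d s)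
  have h4 : x⁻¹ * k' x < c + 2 * δ := h3 ⟨hx.1, hx.2.trans ht.2⟩
  rw [inv_mul_lt_iff₀ hx.1] at h4
  rw [k0, sub_zero, eq_div_iff ht.1.ne'] at e
  rw [div_le_iff₀ (pow_pos ht.1 2)]
  nlinarith [mul_pos ht.1 (sub_pos.2 h4)]

theorem lcpt_of_ftc {n : ℕ} {F : Face n → (Fin n → ℝ) → ℝ} (h0 : ∀ G, 0 < F G 0) (hF : Ftc F)
    (hM : Mid F) : LCpt fun G => F G 0 := by
  intro u δ hδ
  have ode1 : ∀ (H : Face n) a, H a ≠ none →
      Ode (F H) (F (cut H a)) (ax a ((H a).getD true) 1) := by
    intro H a ha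
    obtain ⟨b, hb⟩ := Option.ne_none_iff_exists'.1 ha
    have := ode_of_ftc hF (cut H a) a b (cut_self _ _)
    rwa [put_cut hb, ← show (H a).getD true = b by simp [hb]] at this
  choose k k' k0 hk hd hl using fun H : Face n =>
    face (A := F H) (B := fun a => F (cut H a)) (C := fun a b => F (cut (cut H a) b))
      (fun _ => hF.1 _) (fun _ _ => hF.1 _) (fun a => ax a ((H a).getD true) 1)
      (fun a => u (cut H a) a) (supp H) (fun a ha => ode1 H a (mem_supp.1 ha))
      (fun a _ b hb => by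
        have m := (mem_erase.1 hb).1
        have := ode1 (cut H a) b (by rw [cut_ne _ m]; exact mem_supp.1 (mem_erase.1 hb).2)
        rwa [cut_ne _ m] at this)
      (h0 H) (fun x => by simpa using hM H x (-x))
  let q : Face n → Fin n → Bool → ℝ → ℝ := fun G a b t => u G a *
    (Real.exp (t * u G a) * F G ((t * u G a) • ax a b 1) -
      Real.exp (-(t * u G a)) * F G (-((t * u G a) • ax a b 1)))
  have qd : ∀ G a b t, HasDerivAt (fun t => ∫ s in (0 : ℝ)..t, q G a b s) (q G a b t) t := by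
    intro G a b t
    have c : Continuous (q G a b) := by
      have := hF.1 G
      fun_prop
    exact (c.integral_hasStrictDerivAt 0 t).hasDerivAt
  have e1 := eventually_all.2 fun H : Face n => quad_bound
    (k := fun t => k H t - ∑ a ∈ supp H, ∫ s in (0 : ℝ)..t, q (cut H a) a ((H a).getD true) s)
    hδ (by simp [k0]) (fun t => (hd H t).sub (HasDerivAt.fun_sum fun a _ => qd _ a _ t))
    ((hl H).congr fun t => by rw [mul_sub, mul_sum])
  have e2 := eventually_all.2 fun G : Face n => eventually_all.2 fun a : Fin n => quad_bound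
    (k := fun t => (∫ s in (0 : ℝ)..t, q G a true s) + ∫ s in (0 : ℝ)..t, q G a false s)
    hδ (by simp) (fun t => (qd G a true t).add (qd G a false t))
    ((pair (hF.1 G) (ax a true 1) (u G a)).congr fun t => by
      have : ax a false 1 = -ax a true 1 := by rw [ax, ax, ← Pi.single_neg]; simp [sg]
      simp only [q, this, mul_add])
  obtain ⟨t, h1, h2⟩ := (e1.and e2).exists
  refine ⟨fun H a => -((∫ s in (0 : ℝ)..t, q (cut H a) a ((H a).getD true) s) / t ^ 2),
    fun G a ha => ?_, fun H => ?_⟩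
  · have := h2 G a
    simp only [cut_put (mem_free.1 ha), put_self, Option.getD_some]
    rw [add_div] at this
    linarith
  · have := h1 H
    have h3 : 0 ≤ k H t / t ^ 2 := div_nonneg (hk H t) (sq_nonneg t)
    rw [sub_div, sum_div, mul_div_assoc] at this
    simp only [sum_neg_distrib, mul_comm (F _ 0)]
    linarith

/-- Block PT. -/
theorem pt : PT := fun _ _ _ _ _ _ hR _ hF hM => lcpt_of_ftc (fun G => hR.pos G 0) hF hM

end Pool.Agent.BG
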