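import Mathlib
import Pool.Agent.Lib.MP_79af62_gt.BG.St

/-! Block REC: existence of the shifted orthant integrals. -/

namespace Pool.Agent.BG

open Finset Set MeasureTheory Pool.Agent.Lib.MP_79af62_gt.Glue
open scoped ENNReal

variable {n : ℕ}

namespace RecB

/-- The signed vector of a face. -/
def vec (G : Face n) (y : Fin n → ℝ) : Fin n → ℝ := fun i =>
  match G i with
  | none => 0
  | some e => sg e * y i

/-- The integrand. -/
noncomputable def dens (g : (Fin n → ℝ) → ℝ) (G : Face n) (x y : Fin n → ℝ) : ℝ≥0∞ :=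
  ENNReal.ofReal (Real.exp (∑ i ∈ supp G, y i - g (x + vec G y)))

/-- The orthant integral with values in the extended reals. -/
noncomputable def Ph (g : (Fin n → ℝ) → ℝ) (G : Face n) (x : Fin n → ℝ) : ℝ≥0∞ :=
  lmarginal (fun _ : Fin n => (volume : Measure ℝ).restrict (Ioi 0)) (supp G) (dens g G x) 0

theorem cont_g {g : (Fin n → ℝ) → ℝ} {η L : ℝ} (h : Gauge g η L) : Continuous g := by
  refine continuous_iff_continuousAt.2 fun y => ?_
  have h1 : Continuous fun x : Fin n → ℝ => g y - L * ∑ i, |(y - x) i| := by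
    simp only [Pi.sub_apply]; fun_prop
  have h2 : Continuous fun x : Fin n → ℝ => g y + L * ∑ i, |(x - y) i| := by
    simp only [Pi.sub_apply]; fun_prop
  have a1 := h1.tendsto y
  have a2 := h2.tendsto y
  simp only [sub_self, Pi.zero_apply, abs_zero, sum_const_zero, mul_zero, sub_zero,
    add_zero] at a1 a2
  refine tendsto_of_tendsto_of_tendsto_of_le_of_le a1 a2 (fun x => ?_) (fun x => ?_)
  · have b1 := h.sub x (y - x)
    have b2 := h.up (y - x)
    rw [add_sub_cancel] at b1
    show g y - L * ∑ i, |(y - x) i| ≤ g x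
    linarith
  · have b1 := h.sub y (x - y)
    have b2 := h.up (x - y)
    rw [add_sub_cancel] at b1
    show g x ≤ g y + L * ∑ i, |(x - y) i|
    linarith

theorem cont_vec (G : Face n) : Continuous (vec G) := by
  refine continuous_pi fun i => ?_
  unfold vec
  cases G i with
  | none => exact continuous_const
  | some e => exact continuous_const.mul (continuous_apply i)

theorem meas_dens {g : (Fin n → ℝ) → ℝ} (hg : Continuous g) (G : Face n) (x : Fin n → ℝ) :
    Measurable (dens g G x) := by
  refine ENNReal.measurable_ofReal.comp (Continuous.measurable ?_)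
  have := cont_vec G
  fun_prop

theorem supp_put (G : Face n) (a : Fin n) (e : Bool) : supp (put G a e) = insert a (supp G) := by
  ext b
  rcases eq_or_ne b a with rfl | h
  · simp
  · simp [put_ne G e h, h]

theorem ph_emp (g : (Fin n → ℝ) → ℝ) (x : Fin n → ℝ) :
    Ph g (emp n) x = ENNReal.ofReal (Real.exp (-g x)) := by
  have h0 : supp (emp n) = ∅ := by
    ext b
    simp [emp]
  have h1 : vec (emp n) 0 = 0 := by
    funext i
    simp [vec, emp]
  simp [Ph, h0, dens, h1]

theorem ph_put {g : (Fin n → ℝ) → ℝ} (hg : Continuous g) {G : Face n} {a : Fin n}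
    (ha : a ∈ free G) (e : Bool) (x : Fin n → ℝ) :
    Ph g (put G a e) x =
      ∫⁻ s in Ioi (0 : ℝ), ENNReal.ofReal (Real.exp s) * Ph g G (x + ax a e s) := by
  have hn : G a = none := mem_free.1 ha
  have hs : a ∉ supp G := by simp [hn]
  rw [Ph, supp_put, lmarginal_insert _ (meas_dens hg _ _) hs]
  refine lintegral_congr fun s => ?_
  rw [Ph, lmarginal, lmarginal, ← lintegral_const_mul' _ _ ENNReal.ofReal_ne_top]
  refine lintegral_congr fun y => ?_
  set z := Function.updateFinset (Function.update (0 : Fin n → ℝ) a s) (supp G) y with hz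
  set w := Function.updateFinset (0 : Fin n → ℝ) (supp G) y with hw
  have za : z a = s := by simp [hz, Function.updateFinset, hn]
  have zw : ∀ i ∈ supp G, z i = w i := fun i hi => by
    simp only [hz, hw, Function.updateFinset, dif_pos hi]
  have hv : x + vec (put G a e) z = x + ax a e s + vec G w := by
    funext i
    rcases eq_or_ne i a with rfl | h
    · simp [vec, ax, hn, za]
    · simp only [vec, ax, Pi.add_apply, put_ne G e h, Pi.single_eq_of_ne h, add_zero]
      cases hG : G i with
      | none => rfl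
      | some d => simp [zw i (by simp [hG])]
  rw [dens, dens, supp_put, sum_insert hs, za, hv, sum_congr rfl zw,
    ← ENNReal.ofReal_mul (Real.exp_pos _).le, ← Real.exp_add, add_sub_assoc]

theorem cont_ax (a : Fin n) (e : Bool) : Continuous fun s : ℝ => ax a e s := by
  refine continuous_pi fun i => ?_
  rcases eq_or_ne i a with rfl | h
  · simp only [ax, Pi.single_eq_same]; fun_prop
  · simp only [ax, Pi.single_eq_of_ne h]; exact continuous_const

theorem meas_ph {g : (Fin n → ℝ) → ℝ} (hg : Continuous g) (G : Face n) :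
    Measurable (Ph g G) := by
  induction G using face_ind with
  | h0 =>
    have : Ph g (emp n) = fun x => ENNReal.ofReal (Real.exp (-g x)) := funext (ph_emp g)
    rw [this]
    exact ENNReal.measurable_ofReal.comp (Continuous.measurable (by fun_prop))
  | h1 G a ha e ih =>
    have : Ph g (put G a e) = fun x =>
        ∫⁻ s in Ioi (0 : ℝ), ENNReal.ofReal (Real.exp s) * Ph g G (x + ax a e s) :=
      funext (ph_put hg ha e)
    rw [this]
    refine Measurable.lintegral_prod_right'
      (f := fun q : (Fin n → ℝ) × ℝ => ENNReal.ofReal (Real.exp q.2) * Ph g G (q.1 + ax a e q.2)) ?_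
    refine Measurable.mul
      (ENNReal.measurable_ofReal.comp (Continuous.measurable (by fun_prop))) (ih.comp ?_)
    exact (continuous_fst.add ((cont_ax a e).comp continuous_snd)).measurable

theorem meas_line {g : (Fin n → ℝ) → ℝ} (hg : Continuous g) (G : Face n) (a : Fin n) (e : Bool)
    (x : Fin n → ℝ) :
    Measurable fun s : ℝ => ENNReal.ofReal (Real.exp s) * Ph g G (x + ax a e s) :=
  Measurable.mul (ENNReal.measurable_ofReal.comp Real.continuous_exp.measurable)
    ((meas_ph hg G).comp (continuous_const.add (cont_ax a e)).measurable)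

theorem ph_pos {g : (Fin n → ℝ) → ℝ} (hg : Continuous g) (G : Face n) :
    ∀ x, 0 < Ph g G x := by
  induction G using face_ind with
  | h0 =>
    intro x
    rw [ph_emp]
    exact ENNReal.ofReal_pos.2 (Real.exp_pos _)
  | h1 G a ha e ih =>
    intro x
    rw [ph_put hg ha, lintegral_pos_iff_support (meas_line hg G a e x)]
    have : (Function.support fun s : ℝ =>
        ENNReal.ofReal (Real.exp s) * Ph g G (x + ax a e s)) = univ := by
      refine eq_univ_of_forall fun s => ?_
      exact mul_ne_zero (ENNReal.ofReal_pos.2 (Real.exp_pos _)).ne' (ih _).ne'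
    rw [this]
    simp

/-- The exponent of the upper bound. -/
def ex (G : Face n) (x : Fin n → ℝ) : ℝ := ∑ i, if G i = none then -|x i| else |x i|

theorem ex_put {G : Face n} {a : Fin n} (hn : G a = none) (e : Bool) (x : Fin n → ℝ) (s : ℝ) :
    ex G (x + ax a e s) ≤ ex (put G a e) x - s := by
  unfold ex
  rw [← Finset.add_sum_erase _ _ (Finset.mem_univ a), ← Finset.add_sum_erase _ _ (Finset.mem_univ a)]
  have h1 : ∑ i ∈ univ.erase a, (if G i = none then -|(x + ax a e s) i| else |(x + ax a e s) i|) =
      ∑ i ∈ univ.erase a, (if put G a e i = none then -|x i| else |x i|) := by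
    refine sum_congr rfl fun i hi => ?_
    have h : i ≠ a := ne_of_mem_erase hi
    simp [ax, put_ne G e h, Pi.single_eq_of_ne h]
  rw [h1]
  have h2 : s - |x a| ≤ |x a + sg e * s| := by
    have b1 := le_abs_self (x a)
    have b2 := neg_abs_le (x a)
    have b3 := le_abs_self (x a + sg e * s)
    have b4 := neg_abs_le (x a + sg e * s)
    cases e <;> simp [sg] at b3 b4 ⊢ <;> linarith
  simp only [hn, if_true, put_self, reduceCtorEq, if_false, Pi.add_apply, ax, Pi.single_eq_same]
  linarith

theorem ph_le {g : (Fin n → ℝ) → ℝ} {η L : ℝ} (h : Gauge g η L) (G : Face n) :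
    ∃ C : ℝ≥0∞, C ≠ ∞ ∧ ∀ x, Ph g G x ≤ C * ENNReal.ofReal (Real.exp ((1 + η) * ex G x)) := by
  have hg := cont_g h
  have hη := h.eta
  induction G using face_ind with
  | h0 =>
    refine ⟨1, ENNReal.one_ne_top, fun x => ?_⟩
    rw [ph_emp, one_mul]
    refine ENNReal.ofReal_le_ofReal (Real.exp_le_exp.2 ?_)
    have := h.low x
    simp only [ex, emp, if_true, sum_neg_distrib]
    linarith
  | h1 G a ha e ih =>
    obtain ⟨C, hC, ih⟩ := ih
    have hI : ∫⁻ s in Ioi (0 : ℝ), ENNReal.ofReal (Real.exp (-η * s)) ≠ ∞ :=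
      (exp_neg_integrableOn_Ioi 0 hη).lintegral_lt_top.ne
    refine ⟨C * ∫⁻ s in Ioi (0 : ℝ), ENNReal.ofReal (Real.exp (-η * s)),
      ENNReal.mul_ne_top hC hI, fun x => ?_⟩
    rw [ph_put hg ha, mul_right_comm,
      ← lintegral_const_mul' _ _ (ENNReal.mul_ne_top hC ENNReal.ofReal_ne_top)]
    refine setLIntegral_mono' measurableSet_Ioi fun s _ => ?_
    refine (mul_le_mul_right (ih _) _).trans ?_
    rw [mul_left_comm, mul_assoc, ← ENNReal.ofReal_mul (Real.exp_pos _).le,
      ← ENNReal.ofReal_mul (Real.exp_pos _).le, ← Real.exp_add, ← Real.exp_add]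
    refine mul_le_mul_right (ENNReal.ofReal_le_ofReal (Real.exp_le_exp.2 ?_)) _
    have := mul_le_mul_of_nonneg_left (ex_put (mem_free.1 ha) e x s)
      (by linarith : 0 ≤ 1 + η)
    linarith

theorem ph_ne_top {g : (Fin n → ℝ) → ℝ} {η L : ℝ} (h : Gauge g η L) (G : Face n)
    (x : Fin n → ℝ) : Ph g G x ≠ ∞ := by
  obtain ⟨C, hC, hb⟩ := ph_le h G
  exact ne_top_of_le_ne_top (ENNReal.mul_ne_top hC ENNReal.ofReal_ne_top) (hb x)

end RecB

open RecB in
theorem rec : REC := by
  intro n g η L h
  have hg := cont_g h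
  have key : ∀ (G : Face n) (a : Fin n) (e : Bool) (x : Fin n → ℝ),
      (fun s : ℝ => Real.exp s * (Ph g G (x + ax a e s)).toReal) =
        fun s : ℝ => (ENNReal.ofReal (Real.exp s) * Ph g G (x + ax a e s)).toReal := by
    intro G a e x
    funext s
    rw [ENNReal.toReal_mul, ENNReal.toReal_ofReal (Real.exp_pos _).le]
  refine ⟨fun G x => (Ph g G x).toReal, fun x => ?_, fun G x => ?_, fun G a ha e x => ?_,
    fun G a ha e x => ?_⟩
  · rw [ph_emp, ENNReal.toReal_ofReal (Real.exp_pos _).le]
  · exact ENNReal.toReal_pos (ph_pos hg G x).ne' (ph_ne_top h G x)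
  · rw [key]
    refine integrable_toReal_of_lintegral_ne_top (meas_line hg G a e x).aemeasurable ?_
    rw [← ph_put hg ha]
    exact ph_ne_top h _ x
  · rw [key, integral_toReal (meas_line hg G a e x).aemeasurable, ph_put hg ha]
    exact Filter.Eventually.of_forall fun s =>
      (ENNReal.mul_ne_top ENNReal.ofReal_ne_top (ph_ne_top h G _)).lt_top

end Pool.Agent.BG
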