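import Pool.Agent.Lib.MP_79af62_gt.BG.St

/-! Block SHIFT: subadditivity of the gauge passes to the shifted orthant integrals. -/

namespace Pool.Agent.BG

open Set MeasureTheory

theorem shift : SHIFT := by
  intro n g η L F hg hF G
  induction G using face_ind with
  | h0 =>
    intro x v
    rw [hF.base, hF.base, ← Real.exp_add]
    have := hg.sub x v
    exact Real.exp_le_exp.2 (by linarith)
  | h1 G a ha e ih =>
    intro x v
    rw [hF.step G a ha e x, hF.step G a ha e (x + v), ← integral_const_mul]
    refine setIntegral_mono_on (hF.int G a ha e x) ((hF.int G a ha e (x + v)).const_mul _)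
      measurableSet_Ioi fun s _ => ?_
    have h := ih (x + ax a e s) v
    rw [add_right_comm x (ax a e s) v] at h
    rw [mul_left_comm]
    exact mul_le_mul_of_nonneg_left h (Real.exp_pos s).le

end Pool.Agent.BG
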