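import Pool.Agent.Lib.MP_79af62_gt.BG.St

/-! Block SUM: the face by face form of the second-order inequality gives the summed form. -/

namespace Pool.Agent.BG

open Finset

variable {n : ℕ}

theorem sum_offdiag (Z : Face n → ℝ) (u : Face n → Fin n → ℝ) :
    ∑ H, ∑ a ∈ supp H, ∑ b ∈ (supp H).erase a,
        Z (cut (cut H a) b) * (u (cut H a) a * u (cut H b) b) =
      ∑ F, Z F * ∑ k ∈ free F, ∑ l ∈ (free F).erase k,
        (∑ e, u (put F k e) l) * (∑ d, u (put F l d) k) := by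
  rw [sum_supp fun H a => ∑ b ∈ (supp H).erase a,
    Z (cut (cut H a) b) * (u (cut H a) a * u (cut H b) b)]
  have e1 : ∀ G : Face n, ∑ a ∈ free G, ∑ e, ∑ b ∈ (supp (put G a e)).erase a,
      Z (cut (cut (put G a e) a) b) * (u (cut (put G a e) a) a * u (cut (put G a e) b) b) =
      ∑ b ∈ supp G, ∑ a ∈ free G, ∑ e, Z (cut G b) * (u G a * u (put (cut G b) a e) b) := by
    intro G
    rw [sum_comm (s := supp G)]
    refine sum_congr rfl fun a ha => ?_
    rw [sum_comm (s := supp G)]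
    refine sum_congr rfl fun e _ => ?_
    have ha' := mem_free.1 ha
    rw [← supp_cut, cut_put ha']
    refine sum_congr rfl fun b hb => ?_
    have hab : a ≠ b := by
      rintro rfl
      exact mem_supp.1 hb ha'
    rw [cut_put_ne G hab]
  rw [sum_congr rfl fun G _ => e1 G,
    sum_supp fun G b => ∑ a ∈ free G, ∑ e, Z (cut G b) * (u G a * u (put (cut G b) a e) b)]
  refine sum_congr rfl fun F _ => ?_
  rw [mul_sum]
  refine sum_congr rfl fun k hk => ?_
  have hk' := mem_free.1 hk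
  simp only [free_put, cut_put hk']
  rw [sum_comm, mul_sum]
  refine sum_congr rfl fun l _ => ?_
  rw [sum_mul_sum, mul_sum]
  exact sum_congr rfl fun e _ => by rw [mul_sum]

theorem sum : SUM := by
  intro n Z _ h u
  let C : ℝ := ∑ _H : Face n, (1 : ℝ) + ∑ G : Face n, ∑ _a ∈ free G, (1 : ℝ)
  have C0 : 0 ≤ C := by positivity
  refine le_of_forall_pos_le_add fun ε hε => ?_
  have hδ : 0 < ε / (C + 1) := by positivity
  have hC : C * (ε / (C + 1)) ≤ ε := by
    rw [← mul_div_assoc, div_le_iff₀ (by positivity)]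
    nlinarith
  generalize ε / (C + 1) = δ at hδ hC
  obtain ⟨N, h1, h2⟩ := h u δ hδ
  have s2 := sum_le_sum fun H (_ : H ∈ (univ : Finset (Face n))) => h2 H
  rw [sum_add_distrib, sum_add_distrib, sum_offdiag, sum_supp N] at s2
  have s1 : ∑ G : Face n, ∑ a ∈ free G, (-(2 * Z G * u G a ^ 2) - δ) ≤
      ∑ G : Face n, ∑ a ∈ free G, ∑ e, N (put G a e) a :=
    sum_le_sum fun G _ => sum_le_sum fun a ha => by
      rw [Fintype.sum_bool]
      exact h1 G a ha
  have e1 : ∑ G : Face n, ∑ a ∈ free G, (-(2 * Z G * u G a ^ 2) - δ) =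
      -(2 * ∑ G, Z G * ∑ l ∈ free G, u G l ^ 2) - (∑ G : Face n, ∑ _a ∈ free G, (1 : ℝ)) * δ := by
    simp only [sum_sub_distrib, sum_neg_distrib, mul_sum, sum_mul, one_mul, mul_assoc]
  have e2 : ∑ _H : Face n, δ = (∑ _H : Face n, (1 : ℝ)) * δ := by
    simp only [sum_mul, one_mul]
  have e3 : C * δ = (∑ _H : Face n, (1 : ℝ)) * δ +
      (∑ G : Face n, ∑ _a ∈ free G, (1 : ℝ)) * δ := add_mul _ _ _
  linarith

end Pool.Agent.BG
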