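import Mathlib
import Pool.Agent.Lib.MP_79af62_gt.BG.St

/-! The linear algebra of the plank theorem: one extremal vector for all levels at once. -/

namespace Pool.Agent.BG

/-- A nonnegative symmetric form that vanishes at `v` has `v` in its kernel. -/
theorem form_zero {V : Type} [AddCommGroup V] [Module ℝ V] (B : V →ₗ[ℝ] V →ₗ[ℝ] ℝ)
    (hs : ∀ v w, B v w = B w v) (h0 : ∀ v, 0 ≤ B v v) {v : V} (hv : B v v = 0) (w : V) :
    B v w = 0 := by
  have h : ∀ s : ℝ, 0 ≤ B w w * (s * s) + (2 * B v w) * s + 0 := fun s => by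
    have := h0 (v + s • w)
    simp only [map_add, map_smul, LinearMap.add_apply, LinearMap.smul_apply, smul_eq_mul, hv,
      hs w v] at this
    linarith
  have := discrim_le_zero h
  rw [discrim] at this
  nlinarith [sq_nonneg (B v w)]

/-- The quotient of two forms has a maximum. -/
theorem exists_ext {V : Type} [AddCommGroup V] [Module ℝ V] [FiniteDimensional ℝ V]
    (N Q : V →ₗ[ℝ] V →ₗ[ℝ] ℝ) (hQ : ∀ v, v ≠ 0 → 0 < Q v v) {v0 : V} (h0 : v0 ≠ 0) :
    ∃ (μ : ℝ) (v : V), v ≠ 0 ∧ N v v = μ * Q v v ∧ ∀ w, N w w ≤ μ * Q w w := by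
  obtain ⟨m, ⟨e⟩⟩ : ∃ m, Nonempty ((Fin m → ℝ) ≃ₗ[ℝ] V) :=
    ⟨_, ⟨(Module.finBasis ℝ V).equivFun.symm⟩⟩
  have hc : ∀ B : V →ₗ[ℝ] V →ₗ[ℝ] ℝ, Continuous fun z : Fin m → ℝ => B (e z) (e z) := fun B => by
    have : (fun z : Fin m → ℝ => B (e z) (e z)) = fun z => ∑ i, ∑ j,
        z i * (z j * B (e (Pi.single i 1)) (e (Pi.single j 1))) := by
      funext z
      have hz : e z = ∑ i, z i • e (Pi.single i 1) := by
        conv_lhs => rw [pi_eq_sum_univ' z]
        simp
      conv_lhs => rw [hz]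
      simp only [map_sum, map_smul, LinearMap.sum_apply, LinearMap.smul_apply, smul_eq_mul,
        Finset.mul_sum]
      rw [Finset.sum_comm]
      exact Finset.sum_congr rfl fun i _ => Finset.sum_congr rfl fun j _ => by ring
    rw [this]
    fun_prop
  have hne : ∀ z : Fin m → ℝ, z ∈ Metric.sphere (0 : Fin m → ℝ) 1 → e z ≠ 0 := fun z hz h => by
    rw [e.map_eq_zero_iff] at h
    simp [h] at hz
  have hn : ∀ w : V, w ≠ 0 → ∃ (z : Fin m → ℝ) (c : ℝ), z ∈ Metric.sphere (0 : Fin m → ℝ) 1 ∧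
      w = c • e z := fun w hw => by
    have h1 : ‖e.symm w‖ ≠ 0 := by simpa using hw
    exact ⟨‖e.symm w‖⁻¹ • e.symm w, ‖e.symm w‖, by simp [norm_smul, h1], by simp [smul_smul, h1]⟩
  obtain ⟨z0, -, hz0, -⟩ := hn v0 h0
  obtain ⟨z, hz, hm⟩ := (isCompact_sphere (0 : Fin m → ℝ) 1).exists_isMaxOn ⟨z0, hz0⟩
    (f := fun z => N (e z) (e z) / Q (e z) (e z))
    ((hc N).continuousOn.div (hc Q).continuousOn fun z hz => (hQ _ (hne z hz)).ne')
  refine ⟨N (e z) (e z) / Q (e z) (e z), e z, hne z hz,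
    (div_mul_cancel₀ _ (hQ _ (hne z hz)).ne').symm, fun w => ?_⟩
  rcases eq_or_ne w 0 with rfl | hw
  · simp
  obtain ⟨y, c, hy, rfl⟩ := hn w hw
  have h1 := (div_le_iff₀ (hQ _ (hne y hy))).1 (hm hy)
  simp only [map_smul, LinearMap.smul_apply, smul_eq_mul]
  nlinarith [mul_le_mul_of_nonneg_left h1 (mul_self_nonneg c)]

theorem trickle : TRICKLE := by
  intro A T _ _ _ _ _ a p t D J D' J' κ hκ as ps ts a0 p0 t0 hD hJ hp hinj htop key g1 α1
  have a1 : ∀ v, 0 ≤ a v v := fun v => by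
    rcases eq_or_ne v 0 with rfl | h
    exacts [by simp, (a0 v h).le]
  rcases eq_or_ne g1 0 with rfl | hg1
  · have := a1 α1
    have := t0 (J 0 - D α1)
    simp only [map_zero, mul_zero, add_zero] at *
    linarith
  let X : A × A →ₗ[ℝ] T := J ∘ₗ LinearMap.fst ℝ A A - D ∘ₗ LinearMap.snd ℝ A A
  let N : A × A →ₗ[ℝ] A × A →ₗ[ℝ] ℝ := a.compl₁₂ (LinearMap.fst ℝ A A) (LinearMap.fst ℝ A A)
  let Q : A × A →ₗ[ℝ] A × A →ₗ[ℝ] ℝ := a.compl₁₂ (LinearMap.snd ℝ A A) (LinearMap.snd ℝ A A) +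
    t.compl₁₂ X X + p.compl₁₂ (LinearMap.fst ℝ A A) (LinearMap.fst ℝ A A)
  have hN : ∀ v w, N v w = a v.1 w.1 := fun _ _ => rfl
  have hQ : ∀ v w, Q v w = a v.2 w.2 + t (J v.1 - D v.2) (J w.1 - D w.2) + p v.1 w.1 :=
    fun _ _ => rfl
  have Q0 : ∀ v, v ≠ 0 → 0 < Q v v := by
    rintro ⟨g, α⟩ hv
    rw [hQ]
    rcases eq_or_ne α 0 with rfl | h
    · have := (a0 g fun h => hv (by rw [h]; rfl)).trans_le (hinj g)
      simpa using this
    · have := a0 α h
      have := t0 (J g - D α)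
      have := p0 g
      dsimp only
      linarith
  obtain ⟨μ, ⟨g, α⟩, hv, he, hm⟩ := exists_ext N Q Q0 (v0 := (g1, 0)) (by simp [hg1])
  have μ0 : 0 < μ := by
    have h1 := (a0 g1 hg1).trans_le (hm (g1, 0))
    exact (mul_pos_iff_of_pos_right (Q0 (g1, 0) (by simp [hg1]))).1 h1
  have fo : ∀ w : A × A, μ * Q (g, α) w - N (g, α) w = 0 := fun w =>
    form_zero (μ • Q - N) (fun v w => by
      simp only [LinearMap.sub_apply, LinearMap.smul_apply, smul_eq_mul, hN, hQ]
      rw [as v.1, as v.2, ts, ps])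
      (fun v => sub_nonneg.2 (hm v)) (v := (g, α)) (sub_eq_zero.2 he.symm) w
  obtain ⟨x, hx⟩ : ∃ x, x = J g - D α := ⟨_, rfl⟩
  have hα : α = D' x := by
    by_contra h
    have h1 := fo (0, α - D' x)
    have h2 := a0 _ (sub_ne_zero.2 h)
    rw [hQ, hN, ← hx] at h1
    simp only [map_zero, zero_sub, map_neg, add_zero, sub_zero] at h1
    rw [ts x, hD, as α] at h1
    have h3 := (mul_eq_zero.1 h1).resolve_left μ0.ne'
    rw [(a (α - D' x)).map_sub] at h2
    linarith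
  have hJg : J g = x + D α := by rw [hx, sub_add_cancel]
  have e1 : t x x + a α α = μ * a (J' x) (J' x) := by
    have h1 := fo (J' x, 0)
    rw [hQ, hN, ← hx] at h1
    simp only [map_zero, zero_add, sub_zero, hp, add_zero] at h1
    rw [ts x, hJ, ← hJ g, hJg, map_add, LinearMap.add_apply, hD, ← hα] at h1
    linarith
  obtain ⟨β, hβ⟩ : ∃ β, (LinearMap.id + D' ∘ₗ D : A →ₗ[ℝ] A) β = D' (J α) := by
    refine LinearMap.injective_iff_surjective.1 ((injective_iff_map_eq_zero _).2 fun b hb => ?_) _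
    by_contra h
    have h1 := a0 b h
    have h2 := t0 (D b)
    have h3 : a b (b + D' (D b)) = 0 := by
      rw [show b + D' (D b) = 0 from hb, map_zero]
    rw [map_add, ← hD] at h3
    linarith
  obtain ⟨u, hu⟩ : ∃ u, u = J α - D β := ⟨_, rfl⟩
  have hβ' : D' u = β := by
    rw [hu, map_sub, ← hβ]
    simp
  have e2 : t x (D (J' u)) = t u u + a β β := by
    rw [ts x, hD, ← hα, as, ← hJ, show J α = u + D β by rw [hu, sub_add_cancel], map_add,
      LinearMap.add_apply, hD, hβ']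
  have e3 := key g α β x u hx hu
  have e4 := hm (α, β)
  rw [hN, hQ, ← hu] at e4
  have e5 := htop x
  rw [← hα] at e5
  rw [e2, hβ'] at e3
  dsimp only at e4
  have fin : μ * (1 - κ) ≤ 1 := by
    rcases (t0 x).eq_or_lt with h | h
    · have h1 : a α α = 0 := by
        have := form_zero t ts t0 h.symm (D α)
        rwa [ts, hD, ← hα] at this
      have h2 : α = 0 := by
        by_contra h2
        exact (a0 α h2).ne' h1
      have h3 := hinj g
      have h4 := Q0 _ hv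
      rw [hN, hQ, ← hx] at he
      rw [hQ, ← hx] at h4
      rw [hJg, h2, map_zero, add_zero] at h3
      dsimp only at he h4
      rw [h1, ← h] at he h4
      rw [← h] at h3
      have h5 : μ ≤ 1 := by nlinarith
      nlinarith
    · have h1 := mul_le_mul_of_nonneg_left e3 μ0.le
      have h2 := mul_le_mul_of_nonneg_left e5 μ0.le
      have h3 : μ * (1 - κ) * t x x ≤ 1 * t x x := by nlinarith
      exact le_of_mul_le_mul_right h3 h
  have h1 := hm (g1, α1)
  have h2 := (Q0 (g1, α1) (by simp [hg1])).le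
  rw [hN] at h1
  rw [← hQ (g1, α1) (g1, α1)]
  dsimp only at h1
  rcases le_total 0 (1 - κ) with h | h
  · nlinarith [mul_le_mul_of_nonneg_left h1 h, mul_le_mul_of_nonneg_right fin h2]
  · exact (mul_nonpos_of_nonpos_of_nonneg h (a1 g1)).trans h2

end Pool.Agent.BG
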